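import Pool.Agent.Lib.MP_770f2c_al.Split

/-!
# The raising maps and the subspaces `K_i`
-/

namespace Pool.Agent.MP_770f2c_al

open Polynomial

variable {K V : Type*} [Field K] [AddCommGroup V] [Module K V]

section tau

variable (th : ℕ → K) (A : Module.End K V)

lemma tau_self (i : ℕ) : tau th i i = 1 := by simp [tau]

lemma tau_succ {i j : ℕ} (h : i ≤ j) : tau th i (j + 1) = tau th i j * (X - C (th j)) := by
  rw [tau, Finset.prod_Ico_succ_top h, tau]

lemma tau_mul {i j k : ℕ} (h : i ≤ j) (h' : j ≤ k) : tau th i k = tau th j k * tau th i j := by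
  rw [tau, tau, tau, mul_comm, Finset.prod_Ico_consecutive _ h h']

lemma tau_succ_left {i j : ℕ} (h : i < j) : tau th i j = (X - C (th i)) * tau th (i + 1) j := by
  rw [tau, Finset.prod_eq_prod_Ico_succ_bot h, tau]

lemma eval_tau (i j : ℕ) (x : K) : (tau th i j).eval x = ∏ m ∈ Finset.Ico i j, (x - th m) := by
  simp [tau, eval_prod]

lemma aeval_tau_self (i : ℕ) (v : V) : aeval A (tau th i i) v = v := by
  rw [tau_self]; simp

lemma aeval_tau_succ {i j : ℕ} (h : i ≤ j) (v : V) :
    aeval A (tau th i (j + 1)) v = A (aeval A (tau th i j) v) - th j • aeval A (tau th i j) v := by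
  rw [tau_succ th h, mul_comm, map_mul, Module.End.mul_apply]
  simp [Algebra.algebraMap_eq_smul_one]

lemma aeval_tau_mul {i j k : ℕ} (h : i ≤ j) (h' : j ≤ k) (v : V) :
    aeval A (tau th i k) v = aeval A (tau th j k) (aeval A (tau th i j) v) := by
  rw [tau_mul th h h', map_mul, Module.End.mul_apply]

end tau

/-- `U_i` -/
abbrev UU (E Es : ℕ → Module.End K V) (d i : ℕ) : Submodule K V := Fs Es d (i + 1) ⊓ GG E d i

/-- `K_i` -/
abbrev Ki (E Es : ℕ → Module.End K V) (d i : ℕ) : Submodule K V :=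
  Fs Es d (i + 1) ⊓ sp E d {j | i ≤ j ∧ i + j ≤ d}

namespace Sys

variable {A B : Module.End K V} {d : ℕ} {th ths : ℕ → K} {E Es : ℕ → Module.End K V}

lemma inf_eq_bot' (S : Sys A B d th ths E Es) (k : ℕ) :
    Fs Es d k ⊓ sp E d {j | k + j ≤ d} = ⊥ := by
  have h := S.rev.inf_eq_bot k
  rw [GG, sp_rev] at h
  rw [← h]
  congr 1
  apply sp_congr
  intro j hj
  simp only [Set.mem_ofPred_eq]
  omega

lemma sup_eq_top' (S : Sys A B d th ths E Es) (k : ℕ) :
    Fs Es d k ⊔ sp E d {j | k + j ≤ d} = ⊤ := by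
  have h := S.rev.sup_eq_top k
  rw [GG, sp_rev] at h
  rw [← h]
  congr 1
  apply sp_congr
  intro j hj
  simp only [Set.mem_ofPred_eq]
  omega

lemma Ki_le_UU {i : ℕ} : Ki E Es d i ≤ UU E Es d i :=
  inf_le_inf le_rfl (sp_mono fun _ hj => hj.1)

variable (S : Sys A B d th ths E Es)

include S

lemma tau_mem {i j : ℕ} (h : i ≤ j) {v : V} (hv : v ∈ UU E Es d i) :
    aeval A (tau th i j) v ∈ UU E Es d j := by
  induction j, h using Nat.le_induction with
  | base => rwa [aeval_tau_self]
  | succ j h ih =>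
    rw [aeval_tau_succ th A h]
    exact S.A_sub_mem ih

/-- the components of an element killed by `τ_ij(A)` -/
lemma E_eq_zero {i j : ℕ} (hj : j ≤ d + 1) {v : V} (h0 : aeval A (tau th i j) v = 0) {m : ℕ}
    (hm : m ≤ d) (hm' : ¬ (i ≤ m ∧ m < j)) : E m v = 0 := by
  have h1 := S.D.E_aeval hm (tau th i j) v
  rw [h0, map_zero, eval_tau] at h1
  rcases smul_eq_zero.1 h1.symm with h2 | h2
  · exfalso
    rw [Finset.prod_eq_zero_iff] at h2
    obtain ⟨l, hl, hl'⟩ := h2
    rw [Finset.mem_Ico] at hl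
    have := S.D.inj m hm l (by omega) (sub_eq_zero.1 hl')
    omega
  · exact h2

lemma tau_inj {i j : ℕ} (hij : i ≤ j) (h : i + j ≤ d) {v : V} (hv : v ∈ UU E Es d i)
    (h0 : aeval A (tau th i j) v = 0) : v = 0 := by
  rcases Nat.eq_zero_or_pos j with hj | hj
  · obtain rfl : i = 0 := by omega
    rw [hj, aeval_tau_self] at h0
    exact h0
  · have h1 : v ∈ Fs Es d (d + 1 - j) ⊓ sp E d {m | (d + 1 - j) + m ≤ d} := by
      refine ⟨?_, ?_⟩
      · exact sp_mono (fun m (hm : m < i + 1) => (by show m < d + 1 - j; omega)) hv.1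
      · intro m hm hm'
        apply S.E_eq_zero (by omega) h0 hm
        have : ¬ (d + 1 - j) + m ≤ d := hm'
        omega
    rw [S.inf_eq_bot'] at h1
    exact h1

lemma mem_Ki {i : ℕ} (hi : i ≤ d) {v : V} (hv : v ∈ UU E Es d i)
    (h0 : aeval A (tau th i (d - i + 1)) v = 0) : v ∈ Ki E Es d i := by
  refine ⟨hv.1, ?_⟩
  intro m hm hm'
  apply S.E_eq_zero (by omega) h0 hm
  have : ¬ (i ≤ m ∧ i + m ≤ d) := hm'
  omega

variable [FiniteDimensional K V]

lemma finrank_GG {k : ℕ} (hk : k ≤ d + 1) :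
    Module.finrank K (GG E d k) + Module.finrank K (GG E d (d + 1 - k)) = Module.finrank K V := by
  have h1 := Submodule.finrank_add_eq_of_isCompl (S.isCompl (d + 1 - k))
  have h2 := Submodule.finrank_add_eq_of_isCompl
    (IsCompl.of_eq (S.inf_eq_bot' (d + 1 - k)) (S.sup_eq_top' (d + 1 - k)))
  have h3 : IsCompl (GG E d k) (sp E d {j | (d + 1 - k) + j ≤ d}) := by
    apply IsCompl.of_eq
    · apply S.D.sp_disjoint
      intro j _ (hj : k ≤ j)
      show ¬ ((d + 1 - k) + j ≤ d)
      omega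
    · apply S.D.sp_sup
      intro j hj
      show k ≤ j ∨ ((d + 1 - k) + j ≤ d)
      omega
  have h4 := Submodule.finrank_add_eq_of_isCompl h3
  omega

lemma finrank_UU (k : ℕ) :
    Module.finrank K (GG E d (k + 1)) + Module.finrank K (UU E Es d k) =
      Module.finrank K (GG E d k) := by
  have h1 := Submodule.finrank_sup_add_finrank_inf_eq (GG E d (k + 1)) (UU E Es d k)
  have h2 : GG E d (k + 1) ⊓ UU E Es d k = ⊥ := by
    rw [eq_bot_iff, ← S.inf_eq_bot (k + 1)]
    rintro v ⟨h3, h4, _⟩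
    exact ⟨h4, h3⟩
  rw [h2, ← S.GG_eq] at h1
  simp only [finrank_bot, add_zero] at h1
  exact h1.symm

lemma finrank_UU_eq {i : ℕ} (hi : i ≤ d) :
    Module.finrank K (UU E Es d i) = Module.finrank K (UU E Es d (d - i)) := by
  have h1 := S.finrank_UU i
  have h2 := S.finrank_UU (d - i)
  have h3 := S.finrank_GG (k := i) (by omega)
  have h4 := S.finrank_GG (k := i + 1) (by omega)
  rw [show d + 1 - i = d - i + 1 by omega] at h3
  rw [show d + 1 - (i + 1) = d - i by omega] at h4
  omega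

lemma tau_surj {i : ℕ} (hi : i + i ≤ d) {u : V} (hu : u ∈ UU E Es d (d - i)) :
    ∃ w ∈ UU E Es d i, aeval A (tau th i (d - i)) w = u := by
  let f : UU E Es d i →ₗ[K] UU E Es d (d - i) :=
    (aeval A (tau th i (d - i))).restrict (fun v hv => S.tau_mem (by omega) hv)
  have hinj : Function.Injective f := by
    rw [injective_iff_map_eq_zero]
    intro v hv
    have h1 : aeval A (tau th i (d - i)) v.1 = 0 := congrArg Subtype.val hv
    exact Subtype.ext (S.tau_inj (by omega) (by omega) v.2 h1)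
  have hsurj : Function.Surjective f :=
    (LinearMap.injective_iff_surjective_of_finrank_eq_finrank (S.finrank_UU_eq (by omega))).1 hinj
  obtain ⟨w, hw⟩ := hsurj ⟨u, hu⟩
  exact ⟨w.1, w.2, congrArg Subtype.val hw⟩

lemma UU_decomp {i : ℕ} (hi : 2 * (i + 1) ≤ d) {u : V} (hu : u ∈ UU E Es d (i + 1)) :
    ∃ k ∈ Ki E Es d (i + 1), ∃ w ∈ UU E Es d i, u = k + (A w - th i • w) := by
  have h1 : aeval A (tau th (i + 1) (d - i)) u ∈ UU E Es d (d - i) :=
    S.tau_mem (by omega) hu
  obtain ⟨w, hw, hw'⟩ := S.tau_surj (by omega) h1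
  have h2 : A w - th i • w ∈ UU E Es d (i + 1) := S.A_sub_mem hw
  have h3 : aeval A (tau th i (i + 1)) w = A w - th i • w := by
    rw [aeval_tau_succ th A le_rfl, aeval_tau_self]
  refine ⟨u - (A w - th i • w), ?_, w, hw, by abel⟩
  apply S.mem_Ki (by omega) (Submodule.sub_mem _ hu h2)
  rw [map_sub, show d - (i + 1) + 1 = d - i by omega, ← h3,
    ← aeval_tau_mul th A (by omega) (by omega), hw', sub_self]

/-- `U_j` is spanned by the `τ_ij(A) K_i` -/
lemma UU_le {j : ℕ} (hj : j ≤ d) (P : Submodule K V)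
    (hP : ∀ i ≤ j, i + j ≤ d → ∀ v ∈ Ki E Es d i, aeval A (tau th i j) v ∈ P) :
    UU E Es d j ≤ P := by
  have low : ∀ j, 2 * j ≤ d → ∀ P : Submodule K V,
      (∀ i ≤ j, ∀ v ∈ Ki E Es d i, aeval A (tau th i j) v ∈ P) → UU E Es d j ≤ P := by
    intro j
    induction j with
    | zero =>
      intro _ P hP u hu
      have h1 : u ∈ Ki E Es d 0 := by
        refine ⟨hu.1, ?_⟩
        intro m hm hm'
        exfalso
        apply hm'
        show 0 ≤ m ∧ 0 + m ≤ d
        omega
      have := hP 0 le_rfl u h1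
      rwa [aeval_tau_self] at this
    | succ j ih =>
      intro hj P hP u hu
      obtain ⟨k, hk, w, hw, rfl⟩ := S.UU_decomp hj hu
      apply Submodule.add_mem
      · have := hP (j + 1) le_rfl k hk
        rwa [aeval_tau_self] at this
      · have h1 := ih (by omega) (P.comap (A - th j • LinearMap.id)) (by
          intro i hi v hv
          have := hP i (by omega) v hv
          rw [aeval_tau_succ th A hi] at this
          simpa using this) hw
        simpa using h1
  by_cases h : 2 * j ≤ d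
  · exact low j h P (fun i hi v hv => hP i hi (by omega) v hv)
  · intro u hu
    have hdj : d - (d - j) = j := by omega
    have hu' : u ∈ UU E Es d (d - (d - j)) := by rwa [hdj]
    obtain ⟨w, hw, hw'⟩ := S.tau_surj (i := d - j) (by omega) hu'
    rw [hdj] at hw'
    have h1 := low (d - j) (by omega) (P.comap (aeval A (tau th (d - j) j))) (by
      intro i hi v hv
      have := hP i (by omega) (by omega) v hv
      rw [aeval_tau_mul th A hi (by omega)] at this
      exact this) hw
    rw [← hw']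
    exact h1

/-- `V` is spanned by the `τ_ij(A) K_i` -/
lemma top_le (P : Submodule K V)
    (hP : ∀ i j, i ≤ j → i + j ≤ d → ∀ v ∈ Ki E Es d i, aeval A (tau th i j) v ∈ P) :
    P = ⊤ := by
  rw [eq_top_iff, ← S.iSup_eq_top]
  apply iSup_le
  intro j
  by_cases hj : j ≤ d
  · exact S.UU_le hj P (fun i hi h v hv => hP i j hi h v hv)
  · have : GG E d j = ⊥ := S.D.sp_bot fun m hm => by show ¬ (j ≤ m); omega
    rw [this, inf_bot_eq]
    exact bot_le

end Sys

end Pool.Agent.MP_770f2c_al
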