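import Pool.Agent.Lib.MP_770f2c_al.Scal

/-!
# The three families of scalars
-/

namespace Pool.Agent.MP_770f2c_al

open Polynomial

variable {K : Type*} [Field K]

/-- the sequence `0, 0, 1, ...` with `s_n - β s_(n+1) + s_(n+2) = 1` -/
def ss (β : K) : ℕ → K
  | 0 => 0
  | 1 => 0
  | n + 2 => 1 + β * ss β (n + 1) - ss β n

lemma ss_rec (β : K) (n : ℕ) : ss β (n + 2) = 1 + β * ss β (n + 1) - ss β n := by
  rw [ss]

lemma ss_zero (β : K) : ss β 0 = 0 := by rw [ss]
lemma ss_one (β : K) : ss β 1 = 0 := by rw [ss]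
lemma ss_two (β : K) : ss β 2 = 1 := by rw [ss_rec, ss_zero, ss_one]; ring

lemma ss_inv (β : K) (n : ℕ) : ss β (n + 1) ^ 2 - ss β (n + 1) = ss β (n + 2) * ss β n := by
  induction n with
  | zero => rw [ss_one, ss_zero]; ring
  | succ n ih =>
    have h1 := ss_rec β n
    have h2 := ss_rec β (n + 1)
    rw [show n + 1 + 2 = n + 3 by ring, show n + 1 + 1 = n + 2 by ring] at *
    rw [h2]
    linear_combination ss β (n + 2) * h1 + ih

lemma ss_I {d : ℕ} {th : ℕ → K} {β γ ρ : K} (R : Rec d th β γ ρ) (a k : ℕ) (h : a + k + 2 ≤ d) :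
    ss β (k + 1) * (th (a + k + 1) - th (a + k + 2)) +
      ss β (k + 2) * (th (a + k + 1) - th (a + k)) = th (a + k + 1) - th a := by
  induction k with
  | zero => simp [ss_one, ss_two]
  | succ k ih =>
    have h1 := ih (by omega)
    have h2 := R.one (a + k) (by omega)
    have h3 := R.one (a + k + 1) (by omega)
    have h4 := ss_rec β (k + 1)
    rw [show k + 1 + 2 = k + 3 by ring, show k + 1 + 1 = k + 2 by ring] at *
    rw [show a + (k + 1) + 1 = a + k + 2 by ring, show a + (k + 1) + 2 = a + k + 3 by ring,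
      show a + (k + 1) = a + k + 1 by ring]
    rw [show a + k + 1 + 1 = a + k + 2 by ring, show a + k + 1 + 2 = a + k + 3 by ring] at h3
    rw [h4]
    linear_combination h1 + (-ss β (k + 2)) * h3 + (ss β (k+2)) * h2


/-- `s_(n-1) (θ_a - θ_b) = s_n (θ_(a+1) - θ_(b-1))` for `n = b - a` -/
lemma ss_star {d : ℕ} {th : ℕ → K} {β γ ρ : K} (R : Rec d th β γ ρ) (a n : ℕ)
    (h : a + n + 1 ≤ d) :
    ss β n * (th a - th (a + n + 1)) = ss β (n + 1) * (th (a + 1) - th (a + n)) := by
  rcases n with _ | _ | n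
  · rw [ss_zero, ss_one]; ring
  · rw [show 0 + 1 = 1 by rfl, ss_one, sub_self, zero_mul, mul_zero]
  · have h1 := ss_I R a (n + 1) (by omega)
    have h2 := ss_I R (a + 1) n (by omega)
    have h3 := ss_inv β (n + 1)
    rw [show a + 1 + n + 1 = a + n + 2 by ring, show a + 1 + n + 2 = a + n + 3 by ring,
      show a + 1 + n = a + n + 1 by ring] at h2
    rw [show a + (n + 1) + 1 = a + n + 2 by ring, show a + (n + 1) + 2 = a + n + 3 by ring,
      show a + (n + 1) = a + n + 1 by ring, show n + 1 + 1 = n + 2 by ring,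
      show n + 1 + 2 = n + 3 by ring] at *
    rw [show a + (n + 2) + 1 = a + n + 3 by ring, show a + (n + 2) = a + n + 2 by ring]
    linear_combination ss β (n + 2) * h1 - ss β (n + 3) * h2
      - (th (a + n + 2) - th (a + n + 3)) * h3

lemma ss_ne_zero {d : ℕ} {th : ℕ → K} {β γ ρ : K} (R : Rec d th β γ ρ)
    (hinj : ∀ i ≤ d, ∀ j ≤ d, th i = th j → i = j) {n : ℕ} (h2 : 2 ≤ n) (hn : n ≤ d) :
    ss β n ≠ 0 := by
  induction n, h2 using Nat.le_induction with
  | base => rw [ss_two]; exact one_ne_zero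
  | succ n h ih =>
    intro h0
    have h1 := ss_star R 0 n (by omega)
    rw [h0, zero_mul] at h1
    rcases mul_eq_zero.1 h1 with h3 | h3
    · exact ih (by omega) h3
    · have := hinj 0 (by omega) (0 + n + 1) (by omega) (sub_eq_zero.1 h3)
      omega

/-- existence of the operator for the family `a` -/
lemma case_a {d : ℕ} {th : ℕ → K} {β γ ρ : K} (R : Rec d th β γ ρ) (i : ℕ) :
    ∃ F : K[X] →ₗ[K] K[X], ∀ j, i ≤ j → i + j ≤ d →
      F (tau th i j) = C (aa d th i j) * tau th i (j - 1) ∧
      F (tau (fun m => th (d - m)) i j) =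
        C (aa d th i j) * tau (fun m => th (d - m)) i (j - 1) := by
  set x : ℕ → K := aa d th i with hx
  have hx0 : x i = 0 := by simp [hx, aa]
  have hxs : ∀ j, i ≤ j → x (j + 1) = x j + (th j - th (d - j)) := by
    intro j hj
    simp only [hx, aa]
    rw [Finset.sum_Ico_succ_top hj]
  set th' : ℕ → K := fun m => th (d - m) with hth'
  have R' : Rec d th' β γ ρ := R.rev
  set κ : K := x i - β * x (i + 1) + x (i + 2) with hκ
  set κ' : K := x (i + 1) * (th i + th (i + 1) - β * th i - γ) - κ * th i with hκ'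
  set F := FF β γ ρ (C κ * X + C κ') 0 (C (x (i + 1))) with hF
  have rel := FF_rel β γ ρ (C κ * X + C κ') 0 (C (x (i + 1)))
  rw [← hF] at rel
  have hF1 : F 1 = 0 := FF_one _ _ _ _ _ _
  have hFX : F X = C (x (i + 1)) := FF_X _ _ _ _ _ _
  have S1 : ∀ j, i ≤ j → j + 2 ≤ d - i → x j - β * x (j + 1) + x (j + 2) = κ := by
    intro j hj
    induction j, hj using Nat.le_induction with
    | base => intro _; rfl
    | succ j hj ih =>
      intro hjd
      have h1 := ih (by omega)
      have h2 := R.one j (by omega)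
      have h3 := R'.one j (by omega)
      have e1 := hxs j hj
      have e2 := hxs (j + 1) (by omega)
      have e3 := hxs (j + 2) (by omega)
      rw [show j + 1 + 1 = j + 2 by ring, show j + 1 + 2 = j + 3 by ring] at *
      rw [show j + 2 + 1 = j + 3 by ring] at e3
      simp only [hth'] at h3
      linear_combination h1 + e1 - β * e2 + e3 + h2 - h3
  -- `Q` is constant
  have Qc : ∀ t : ℕ → K, Rec d t β γ ρ →
      x (i + 1) * (t i + t (i + 1) - β * t i - γ) - κ * t i = κ' →
      ∀ j, i ≤ j → j + 2 ≤ d - i → x j * (t (j - 1) + t j - β * t j - γ)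
        + x (j + 1) * (t j + t (j + 1) - β * t j - γ) = κ * t j + κ' := by
    intro t Rt hbase j hj
    induction j, hj using Nat.le_induction with
    | base =>
      intro _
      rw [hx0]
      linear_combination hbase
    | succ j hj ih =>
      intro hjd
      have h1 := ih (by omega)
      have h2 := Rt.one j (by omega)
      have h3 := S1 j hj (by omega)
      have h4 : x j * (t (j - 1) - β * t j + t (j + 1) - γ) = 0 := by
        by_cases hji : j = i
        · rw [hji, hx0, zero_mul]
        · have := Rt.one (j - 1) (by omega)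
          rw [show j - 1 + 1 = j by omega, show j - 1 + 2 = j + 1 by omega] at this
          rw [this, sub_self, mul_zero]
      rw [show j + 1 - 1 = j by omega, show j + 1 + 1 = j + 2 by ring]
      linear_combination h1 + x (j + 2) * h2 + (t (j + 1) - t j) * h3 - h4
  have main : ∀ t : ℕ → K, Rec d t β γ ρ →
      x (i + 1) * (t i + t (i + 1) - β * t i - γ) - κ * t i = κ' →
      ∀ j, i ≤ j → i + j ≤ d → F (tau t i j) = C (x j) * tau t i (j - 1) := by
    intro t Rt hbase j hj hjd
    rcases Nat.eq_or_lt_of_le hj with h | h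
    · rw [← h, tau_self, hF1, hx0]; simp
    · obtain ⟨j, rfl⟩ : ∃ k, j = k + 1 := ⟨j - 1, by omega⟩
      have base1 : F (tau t i (i + 1)) = C (x (i + 1)) * tau t i i := by
        rw [tau_succ t le_rfl, tau_self, one_mul, mul_one]
        have : (C (t i) : K[X]) = t i • 1 := by rw [smul_eq_C_mul, mul_one]
        rw [map_sub, this, map_smul, hF1, hFX, smul_zero, sub_zero]
      refine (run rel Rt (x := x) (κ := κ) (c := fun j => κ * t j + κ') (i := i) (h := i)
        (j0 := i) (N := d - i) (Nat.sub_le _ _) le_rfl le_rfl (Or.inl hx0) ?_ base1 ?_ S1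
        (Qc t Rt hbase) j (by omega) (by omega)).2
      · rw [tau_self, hF1, hx0]; simp
      · intro j _ _
        simp only [C_add, C_mul]
        ring
  refine ⟨F, fun j hj hjd => ⟨main th R (by rw [hκ']) j hj hjd, main th' R' ?_ j hj hjd⟩⟩
  -- the two constants agree
  have e1 := hxs i le_rfl
  have e2 := hxs (i + 1) (Nat.le_succ i)
  rw [show i + 1 + 1 = i + 2 by ring] at e2
  rw [hx0] at e1 hκ
  simp only [hth']
  rw [hκ', hκ]
  linear_combination (x (i + 1)) * e2 - (x (i + 2)) * e1 + x (i + 1) * e1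


/-- existence of the operator for the family `g`, unnormalised -/
lemma case_g' (d : ℕ) (β γ ρ : K) (i : ℕ) :
    ∃ F : K[X] →ₗ[K] K[X], ∀ t : ℕ → K, Rec d t β γ ρ → ∀ j, i ≤ j → i + j ≤ d →
      F (tau t i j) = C (ss β (j - i)) * tau t (i + 1) (j - 1) := by
  set F := FF β γ ρ 1 0 0 with hF
  have rel := FF_rel β γ ρ 1 0 0
  rw [← hF] at rel
  have hF1 : F 1 = 0 := FF_one _ _ _ _ _ _
  have hFX : F X = 0 := FF_X _ _ _ _ _ _
  have hC : ∀ a : K, F (C a) = 0 := by
    intro a
    have : (C a : K[X]) = a • 1 := by rw [smul_eq_C_mul, mul_one]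
    rw [this, map_smul, hF1, smul_zero]
  refine ⟨F, fun t Rt j hj hjd => ?_⟩
  have b1 : F (tau t i (i + 1)) = 0 := by
    rw [tau_succ t le_rfl, tau_self, one_mul, map_sub, hC, hFX, sub_zero]
  have b2 : F (tau t i (i + 2)) = 1 := by
    rw [tau_succ t (by omega), tau_succ t le_rfl, tau_self, one_mul]
    have : (X - C (t i)) * (X - C (t (i + 1))) =
        X ^ 2 * 1 - (t i + t (i + 1)) • X + C (t i * t (i + 1)) := by
      rw [smul_eq_C_mul, C_add, C_mul]; ring
    rw [this, map_add, map_sub, map_smul, rel, hC, hFX, mul_one, hFX, hF1, smul_zero]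
    ring
  rcases Nat.eq_or_lt_of_le hj with h | h
  · rw [← h, tau_self, hF1, Nat.sub_self, ss_zero]; simp
  rcases Nat.eq_or_lt_of_le h with h' | h'
  · rw [← h', Nat.succ_eq_add_one, b1, show i + 1 - i = 1 by omega, ss_one]; simp
  obtain ⟨j, rfl⟩ : ∃ k, j = k + 1 := ⟨j - 1, by omega⟩
  refine (run rel Rt (x := fun j => ss β (j - i)) (κ := 1) (c := fun j => t j - t i) (i := i)
    (h := i + 1) (j0 := i + 1) (N := d - i) (Nat.sub_le _ _) le_rfl (Nat.le_succ _) ?_ ?_ ?_
    ?_ ?_ ?_ j (by omega) (by omega)).2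
  · left
    show ss β (i + 1 - i) = 0
    rw [show i + 1 - i = 1 by omega, ss_one]
  · rw [b1, show i + 1 - i = 1 by omega, ss_one]; simp
  · rw [b2, tau_self, show i + 1 + 1 - i = 2 by omega, ss_two]; simp
  · intro j hj _
    rw [tau_succ_left t (show i < j by omega)]
    simp only [C_sub, C_1]
    ring
  · intro j hj _
    rw [show j + 1 - i = j - i + 1 by omega, show j + 2 - i = j - i + 2 by omega, ss_rec]
    ring
  · intro j hj hjd
    have h1 := ss_I Rt i (j - i - 1) (by omega)
    have h2 := Rt.one (j - 1) (by omega)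
    rw [show j - i - 1 + 1 = j - i by omega, show j - i - 1 + 2 = j - i + 1 by omega,
      show i + (j - i - 1) + 1 = j by omega, show i + (j - i - 1) + 2 = j + 1 by omega,
      show i + (j - i - 1) = j - 1 by omega] at h1
    rw [show j - 1 + 1 = j by omega, show j - 1 + 2 = j + 1 by omega] at h2
    rw [show j + 1 - i = j - i + 1 by omega]
    linear_combination h1 + (ss β (j - i) + ss β (j - i + 1)) * h2

/-- existence of the operator for the family `b`, unnormalised -/
lemma case_b' {d : ℕ} {th : ℕ → K} {β γ ρ : K} (R : Rec d th β γ ρ) (h : ℕ)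
    (hd : 2 * (h + 1) ≤ d) :
    ∃ F : K[X] →ₗ[K] K[X], ∀ j, h + 1 ≤ j → h + 1 + j ≤ d →
      F (tau th (h + 1) j) = C (ss β (d - h + 1 - j)) * tau th h (j - 1) ∧
      F (tau (fun m => th (d - m)) (h + 1) j) =
        C (ss β (d - h + 1 - j)) * tau (fun m => th (d - m)) h (j - 1) := by
  set th' : ℕ → K := fun m => th (d - m) with hth'
  have R' : Rec d th' β γ ρ := R.rev
  set x : ℕ → K := fun j => ss β (d - h + 1 - j) with hx
  set e : K[X] := (X - C (th h)) * (X - C (th' h)) with he
  set F := FF β γ ρ e (C (x (h + 1)))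
    (C (x (h + 2)) * (X - C (th h)) + C (th (h + 1) * x (h + 1))) with hF
  have rel := FF_rel β γ ρ e (C (x (h + 1)))
    (C (x (h + 2)) * (X - C (th h)) + C (th (h + 1) * x (h + 1)))
  rw [← hF] at rel
  have hF1 : F 1 = C (x (h + 1)) := FF_one _ _ _ _ _ _
  have hFX : F X = C (x (h + 2)) * (X - C (th h)) + C (th (h + 1) * x (h + 1)) :=
    FF_X _ _ _ _ _ _
  have hC : ∀ a : K, F (C a) = C (a * x (h + 1)) := by
    intro a
    have : (C a : K[X]) = a • 1 := by rw [smul_eq_C_mul, mul_one]
    rw [this, map_smul, hF1, smul_eq_C_mul, C_mul]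
  have star := ss_star R h (d - 2 * h - 1) (by omega)
  have hxa : x (h + 1) = ss β (d - 2 * h) := by
    simp only [hx]; congr 1; omega
  have hxb : x (h + 2) = ss β (d - 2 * h - 1) := by
    simp only [hx]; congr 1; omega
  rw [show d - 2 * h - 1 + 1 = d - 2 * h by omega, ← hxa, ← hxb,
    show h + (d - 2 * h - 1) + 1 = d - h by omega,
    show h + (d - 2 * h - 1) = d - (h + 1) by omega] at star
  have main : ∀ t t' : ℕ → K, Rec d t β γ ρ → (∀ j ≤ d, t' j = t (d - j)) →
      e = (X - C (t h)) * (X - C (t' h)) →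
      F (tau t (h + 1) (h + 2)) = C (x (h + 2)) * (X - C (t h)) →
      ∀ j, h + 1 ≤ j → h + 1 + j ≤ d → F (tau t (h + 1) j) = C (x j) * tau t h (j - 1) := by
    intro t t' Rt ht' het hb j hj hjd
    rcases Nat.eq_or_lt_of_le hj with h' | h'
    · rw [← h', tau_self, hF1]; simp [tau_self]
    · obtain ⟨j, rfl⟩ : ∃ k, j = k + 1 := ⟨j - 1, by omega⟩
      have Rt' : Rec d t' β γ ρ := by
        have h1 := Rt.rev
        constructor
        · intro j hj
          rw [ht' j (by omega), ht' (j + 1) (by omega), ht' (j + 2) (by omega)]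
          exact h1.one j hj
        · intro j hj
          rw [ht' j (by omega), ht' (j + 1) (by omega)]
          exact h1.two j hj
      refine (run rel Rt (x := x) (κ := 1) (c := fun j => t j - t' h) (i := h + 1)
        (h := h) (j0 := h + 1) (N := d - (h + 1)) (Nat.sub_le _ _) (Nat.le_succ _) le_rfl
        (Or.inr le_rfl) ?_ ?_ ?_ ?_ ?_ j (by omega) (by omega)).2
      · rw [tau_self, hF1]; simp [tau_self]
      · rw [hb, tau_succ t le_rfl, tau_self, one_mul]
      · intro j hj _
        rw [het, tau_succ_left t (show h < j by omega)]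
        simp only [C_sub, C_1]
        ring
      · intro j hj _
        simp only [hx]
        rw [show d - h + 1 - j = d - h + 1 - (j + 2) + 2 by omega,
          show d - h + 1 - (j + 1) = d - h + 1 - (j + 2) + 1 by omega, ss_rec]
        ring
      · intro j hj hjd
        have h1 := ss_I Rt' h (d - h - j - 1) (by omega)
        have h2 := Rt.one (j - 1) (by omega)
        have e1 : x j = ss β (d - h - j - 1 + 2) := by
          simp only [hx]; congr 1; omega
        have e2 : x (j + 1) = ss β (d - h - j - 1 + 1) := by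
          simp only [hx]; congr 1; omega
        rw [← e1, ← e2, ht' _ (by omega), ht' _ (by omega), ht' _ (by omega),
          show d - (h + (d - h - j - 1) + 1) = j by omega,
          show d - (h + (d - h - j - 1) + 2) = j - 1 by omega,
          show d - (h + (d - h - j - 1)) = j + 1 by omega] at h1
        rw [show j - 1 + 1 = j by omega, show j - 1 + 2 = j + 1 by omega] at h2
        linear_combination h1 + (x j + x (j + 1)) * h2
  refine ⟨F, fun j hj hjd => ⟨?_, ?_⟩⟩
  · refine main th th' R (fun _ _ => rfl) rfl ?_ j hj hjd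
    rw [tau_succ th le_rfl, tau_self, one_mul, map_sub, hC, hFX]
    ring
  · refine main th' th R' (fun j hj => ?_) ?_ ?_ j hj hjd
    · simp only [hth']
      rw [Nat.sub_sub_self hj]
    · rw [he, mul_comm]
    · rw [tau_succ th' le_rfl, tau_self, one_mul, map_sub, hC, hFX]
      have star' : C (x (h + 2)) * (C (th h) - C (th' h)) =
          C (x (h + 1)) * (C (th (h + 1)) - C (th' (h + 1))) := by
        rw [← C_sub, ← C_sub, ← C_mul, ← C_mul, star]
      simp only [C_mul]
      linear_combination (-1 : K[X]) * star'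


section normal

variable {d : ℕ} {th : ℕ → K} {β γ ρ : K} (R : Rec d th β γ ρ)
  (hinj : ∀ i ≤ d, ∀ j ≤ d, th i = th j → i = j)

include R

lemma prod_b (h : ℕ) (j : ℕ) (hj : h + 1 ≤ j) (hjd : h + 1 + j ≤ d) :
    ss β (d - h + 1 - j) * ∏ m ∈ Finset.Ico h (j - 1), (th h - th (d - m)) =
      ss β (d - 2 * h) * ∏ m ∈ Finset.Ico (h + 1) j, (th (h + 1) - th (d - m)) := by
  induction j, hj using Nat.le_induction with
  | base =>
    rw [Nat.add_sub_cancel, Finset.Ico_self, Finset.Ico_self, Finset.prod_empty,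
      Finset.prod_empty, show d - h + 1 - (h + 1) = d - 2 * h by omega]
  | succ j hj ih =>
    have h1 := ih (by omega)
    have h2 := ss_star R h (d - h - j) (by omega)
    rw [show d - h - j + 1 = d - h + 1 - j by omega,
      show h + (d - h - j) + 1 = d - (j - 1) by omega, show h + (d - h - j) = d - j by omega] at h2
    rw [Nat.add_sub_cancel, Finset.prod_Ico_succ_top hj]
    have h3 : ∏ m ∈ Finset.Ico h j, (th h - th (d - m)) =
        (∏ m ∈ Finset.Ico h (j - 1), (th h - th (d - m))) * (th h - th (d - (j - 1))) := by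
      have := Finset.prod_Ico_succ_top (show h ≤ j - 1 by omega) (fun m => th h - th (d - m))
      rw [Nat.sub_add_cancel (by omega)] at this
      exact this
    rw [h3, show d - h + 1 - (j + 1) = d - h - j by omega]
    linear_combination (∏ m ∈ Finset.Ico h (j - 1), (th h - th (d - m))) * h2 +
      (th (h + 1) - th (d - j)) * h1

lemma prod_g (i : ℕ) (k : ℕ) (hk : i + (i + k) ≤ d) :
    ss β (d - i - k - i) * ∏ m ∈ Finset.Ioc (d - i - k) (d - i), (th i - th m) =
      ss β (d - 2 * i) * ∏ m ∈ Finset.Ico (d - i - k) (d - i), (th (i + 1) - th m) := by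
  induction k with
  | zero =>
    rw [Nat.sub_zero, Finset.Ioc_self, Finset.Ico_self, Finset.prod_empty,
      Finset.prod_empty, show d - i - i = d - 2 * i by omega]
  | succ k ih =>
    have h1 := ih (by omega)
    have h2 := ss_star R i (d - i - (k + 1) - i) (by omega)
    rw [show d - i - (k + 1) - i + 1 = d - i - k - i by omega,
      show i + (d - i - (k + 1) - i) + 1 = d - i - k by omega,
      show i + (d - i - (k + 1) - i) = d - i - (k + 1) by omega] at h2
    have h3 : ∏ m ∈ Finset.Ico (d - i - (k + 1)) (d - i), (th (i + 1) - th m) =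
        (th (i + 1) - th (d - i - (k + 1))) *
          ∏ m ∈ Finset.Ico (d - i - k) (d - i), (th (i + 1) - th m) := by
      rw [Finset.prod_eq_prod_Ico_succ_bot (by omega),
        show d - i - (k + 1) + 1 = d - i - k by omega]
    have h4 : ∏ m ∈ Finset.Ioc (d - i - (k + 1)) (d - i), (th i - th m) =
        (th i - th (d - i - k)) * ∏ m ∈ Finset.Ioc (d - i - k) (d - i), (th i - th m) := by
      have e1 : Finset.Ioc (d - i - (k + 1)) (d - i) =
          insert (d - i - k) (Finset.Ioc (d - i - k) (d - i)) := by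
        ext m
        simp only [Finset.mem_Ioc, Finset.mem_insert]
        omega
      rw [e1, Finset.prod_insert (by simp)]
    rw [h3, h4]
    linear_combination (∏ m ∈ Finset.Ioc (d - i - k) (d - i), (th i - th m)) * h2 +
      (th (i + 1) - th (d - i - (k + 1))) * h1

include hinj

/-- existence of the operator for the family `b` -/
lemma case_b (i : ℕ) (hi : 1 ≤ i) (hd : 2 * i ≤ d) :
    ∃ F : K[X] →ₗ[K] K[X], ∀ j, i ≤ j → i + j ≤ d →
      F (tau th i j) = C (bb d th i j) * tau th (i - 1) (j - 1) ∧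
      F (tau (fun m => th (d - m)) i j) =
        C (bb d th i j) * tau (fun m => th (d - m)) (i - 1) (j - 1) := by
  obtain ⟨h, rfl⟩ : ∃ h, i = h + 1 := ⟨i - 1, by omega⟩
  obtain ⟨F, hF⟩ := case_b' R h hd
  have hs : ss β (d - 2 * h) ≠ 0 := ss_ne_zero R hinj (by omega) (by omega)
  have key : ∀ j, h + 1 ≤ j → h + 1 + j ≤ d →
      (ss β (d - 2 * h))⁻¹ * ss β (d - h + 1 - j) = bb d th (h + 1) j := by
    intro j hj hjd
    have h1 := prod_b R h j hj hjd
    have h2 : ∏ m ∈ Finset.Ico h (j - 1), (th h - th (d - m)) ≠ 0 := by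
      rw [Finset.prod_ne_zero_iff]
      intro m hm
      rw [Finset.mem_Ico] at hm
      rw [sub_ne_zero]
      intro h0
      have := hinj h (by omega) (d - m) (by omega) h0
      omega
    rw [bb, if_neg (Nat.succ_ne_zero h), Nat.add_sub_cancel, eq_div_iff h2]
    field_simp
    linear_combination h1
  refine ⟨(ss β (d - 2 * h))⁻¹ • F, fun j hj hjd => ?_⟩
  obtain ⟨h1, h2⟩ := hF j hj hjd
  rw [LinearMap.smul_apply, LinearMap.smul_apply, h1, h2, ← key j hj hjd, C_mul,
    Nat.add_sub_cancel, smul_eq_C_mul, smul_eq_C_mul]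
  exact ⟨by ring, by ring⟩

/-- existence of the operator for the family `g` -/
lemma case_g (i : ℕ) :
    ∃ F : K[X] →ₗ[K] K[X], ∀ j, i ≤ j → i + j ≤ d →
      F (tau th i j) = C (gg d th i j) * tau th (i + 1) (j - 1) ∧
      F (tau (fun m => th (d - m)) i j) =
        C (gg d th i j) * tau (fun m => th (d - m)) (i + 1) (j - 1) := by
  obtain ⟨F, hF⟩ := case_g' d β γ ρ i
  have key : ∀ j, i ≤ j → i + j ≤ d →
      (ss β (d - 2 * i))⁻¹ * ss β (j - i) = gg d th i j := by
    intro j hj hjd
    rw [gg]
    split_ifs with h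
    · have : ss β (j - i) = 0 := by
        have : j - i = 0 ∨ j - i = 1 := by omega
        rcases this with h' | h'
        · rw [h', ss_zero]
        · rw [h', ss_one]
      rw [this, mul_zero]
    · have hs : ss β (d - 2 * i) ≠ 0 := ss_ne_zero R hinj (by omega) (by omega)
      have h1 := prod_g R i (d - i - j) (by omega)
      rw [show d - i - (d - i - j) = j by omega] at h1
      have h2 : ∏ m ∈ Finset.Ioc j (d - i), (th i - th m) ≠ 0 := by
        rw [Finset.prod_ne_zero_iff]
        intro m hm
        rw [Finset.mem_Ioc] at hm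
        rw [sub_ne_zero]
        intro h0
        have := hinj i (by omega) m (by omega) h0
        omega
      rw [eq_div_iff h2]
      field_simp
      linear_combination h1
  refine ⟨(ss β (d - 2 * i))⁻¹ • F, fun j hj hjd => ?_⟩
  have h1 := hF th R j hj hjd
  have h2 := hF _ R.rev j hj hjd
  rw [LinearMap.smul_apply, LinearMap.smul_apply, h1, h2, ← key j hj hjd, C_mul,
    smul_eq_C_mul, smul_eq_C_mul]
  exact ⟨by ring, by ring⟩

end normal

end Pool.Agent.MP_770f2c_al
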