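import Pool.Agent.Lib.MP_770f2c_al.Sol

/-!
# Every solution is given by three families
-/

namespace Pool.Agent.MP_770f2c_al

open Polynomial

variable {K V : Type*} [Field K] [AddCommGroup V] [Module K V]

lemma IsSolution.sub {A B : Module.End K V} {d : ℕ} {th ths : ℕ → K} {X Y : Module.End K V}
    (hX : IsSolution A B d th ths X) (hY : IsSolution A B d th ths Y) :
    IsSolution A B d th ths (X - Y) where
  low i hi v hv := Submodule.sub_mem _ (hX.low i hi v hv) (hY.low i hi v hv)
  tri i hi v hv := Submodule.sub_mem _ (hX.tri i hi v hv) (hY.tri i hi v hv)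

namespace Sys

variable {A B : Module.End K V} {d : ℕ} {th ths : ℕ → K} {E Es : ℕ → Module.End K V}

/-- solutions lower the split decomposition -/
lemma lower_of_isSolution (S : Sys A B d th ths E Es) {X : Module.End K V}
    (hX : IsSolution A B d th ths X) (j : ℕ) {u : V} (hu : u ∈ UU E Es d j) :
    X u ∈ Fs Es d j ⊓ GG E d (j - 1) := by
  constructor
  · have h1 : ∀ v ∈ Fs Es d (j + 1), X v ∈ Fs Es d j := by
      intro v hv
      refine S.Ds.map_sp_le ?_ hv
      intro i hi hij w hw
      have h2 := hX.low i hi w ((S.Ds.mem_eigenspace hi).2 hw)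
      rw [S.Ds.eigSum_eq (s := {j | j < i}) (fun j (hj : j < i) => by omega)] at h2
      have hij' : i < j + 1 := hij
      exact sp_mono (fun m (hm : m < i) => (by show m < j; omega)) h2
    exact h1 u hu.1
  · refine S.D.map_sp_le ?_ hu.2
    intro i hi hij w hw
    have h2 := hX.tri i hi w ((S.D.mem_eigenspace hi).2 hw)
    rw [S.D.eigSum_eq (s := {j | j ≤ d ∧ i ≤ j + 1 ∧ j ≤ i + 1}) (fun j hj => hj.1)] at h2
    have hij' : j ≤ i := hij
    exact sp_mono (fun m hm => (by
      have hm' : m ≤ d ∧ i ≤ m + 1 ∧ m ≤ i + 1 := hm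
      show j - 1 ≤ m; omega)) h2

lemma isSolution_rev (S : Sys A B d th ths E Es) {X : Module.End K V}
    (hX : IsSolution A B d th ths X) : IsSolution A B d (fun i => th (d - i)) ths X where
  low := hX.low
  tri := by
    intro i hi v hv
    have h1 := hX.tri (d - i) (Nat.sub_le _ _) v hv
    rw [S.D.eigSum_eq (s := {j | j ≤ d ∧ d - i ≤ j + 1 ∧ j ≤ d - i + 1}) (fun j hj => hj.1)] at h1
    rw [S.rev.D.eigSum_eq (s := {j | j ≤ d ∧ i ≤ j + 1 ∧ j ≤ i + 1}) (fun j hj => hj.1), sp_rev]
    refine sp_mono ?_ h1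
    intro j hj
    have hj' : j ≤ d ∧ d - i ≤ j + 1 ∧ j ≤ d - i + 1 := hj
    show d - j ≤ d ∧ i ≤ d - j + 1 ∧ d - j ≤ i + 1
    omega

lemma Ki_le_rev {i : ℕ} : Ki E Es d i ≤ UU (fun i => E (d - i)) Es d i := by
  rw [← Ki_rev]
  exact Ki_le_UU

/-- solutions map `K_i` to `K_(i-1)` -/
lemma map_Ki (S : Sys A B d th ths E Es) {X : Module.End K V}
    (hX : IsSolution A B d th ths X) {i : ℕ} {v : V} (hv : v ∈ Ki E Es d i) :
    X v ∈ Ki E Es d (i - 1) := by
  have h1 := S.lower_of_isSolution hX i (Ki_le_UU hv)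
  have h2 := S.rev.lower_of_isSolution (S.isSolution_rev hX) i (Ki_le_rev hv)
  rcases i with _ | i
  · rw [S.Fs_zero, bot_inf_eq, Submodule.mem_bot] at h1
    rw [h1]; exact Submodule.zero_mem _
  · rw [Nat.add_sub_cancel] at *
    refine ⟨h1.1, ?_⟩
    have h3 : X v ∈ sp (fun i => E (d - i)) d {j | i ≤ j} := h2.2
    rw [sp_rev] at h3
    intro j hj hj'
    have hj'' : ¬ (i ≤ j ∧ i + j ≤ d) := hj'
    by_cases h4 : i ≤ j
    · apply h3 j hj
      show ¬ (i ≤ d - j)
      omega
    · exact h1.2 j hj h4

/-- an element of `X U_(i+1)` that comes from both decompositions -/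
lemma mem_Ki_of_both (S : Sys A B d th ths E Es) {X : Module.End K V}
    (hX : IsSolution A B d th ths X) {i : ℕ} {u u' : V} (hu : u ∈ UU E Es d (i + 1))
    (hu' : u' ∈ UU (fun i => E (d - i)) Es d (i + 1)) (h : X u = X u') : X u ∈ Ki E Es d i := by
  have h1 := S.lower_of_isSolution hX (i + 1) hu
  have h2 := S.rev.lower_of_isSolution (S.isSolution_rev hX) (i + 1) hu'
  rw [← h] at h2
  rw [Nat.add_sub_cancel] at *
  refine ⟨h1.1, ?_⟩
  have h3 : X u ∈ sp (fun i => E (d - i)) d {j | i ≤ j} := h2.2
  rw [sp_rev] at h3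
  intro j hj hj'
  have hj'' : ¬ (i ≤ j ∧ i + j ≤ d) := hj'
  by_cases h4 : i ≤ j
  · apply h3 j hj
    show ¬ (i ≤ d - j)
    omega
  · exact h1.2 j hj h4

/-- the key vanishing result -/
lemma vanish (S : Sys A B d th ths E Es) {X : Module.End K V}
    (hX : IsSolution A B d th ths X)
    (h : ∀ i n, n ≤ 2 → i + (i + n) ≤ d → ∀ v ∈ Ki E Es d i, X (aeval A (tau th i (i + n)) v) = 0)
    (i n : ℕ) (hn : i + (i + n) ≤ d) (v : V) (hv : v ∈ Ki E Es d i) :
    X (aeval A (tau th i (i + n)) v) = 0 := by
  induction n using Nat.strong_induction_on with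
  | _ n ih =>
    by_cases hn2 : n ≤ 2
    · exact h i n hn2 hn v hv
    push Not at hn2
    set w := X (aeval A (tau th i (i + n)) v) with hw
    have hU : ∀ l, i ≤ l → X (aeval A (tau th i l) v) ∈ Fs Es d l ⊓ GG E d (l - 1) := fun l hl =>
      S.lower_of_isSolution hX l (S.tau_mem hl (Ki_le_UU hv))
    -- the elements `T_l`
    let T : ℕ → V := fun l => aeval A (tau th (i + 1) (l + 1)) v
    have hT : ∀ l, i ≤ l → T (l + 1) = aeval A (tau th i (l + 1)) v +
        (th i - th (l + 1)) • T l := by
      intro l hl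
      simp only [T]
      have e1 : tau th (i + 1) (l + 1 + 1) = tau th i (l + 1) +
          (th i - th (l + 1)) • tau th (i + 1) (l + 1) := by
        rw [tau_succ th (show i + 1 ≤ l + 1 by omega), tau_succ_left th (show i < l + 1 by omega),
          smul_eq_C_mul, C_sub]
        ring
      rw [e1, map_add, LinearMap.add_apply, map_smul, LinearMap.smul_apply]
    have hT0 : ∀ m, m < n → X (T (i + m)) = 0 := by
      intro m hm
      induction m with
      | zero =>
        have h1 := ih 0 (by omega) (by omega)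
        rw [Nat.add_zero, aeval_tau_self] at h1
        simp only [T, Nat.add_zero]
        rw [aeval_tau_self, h1]
      | succ m ihm =>
        rw [← Nat.add_assoc, hT (i + m) (by omega), map_add, map_smul, ihm (by omega), smul_zero,
          add_zero, Nat.add_assoc]
        exact ih (m + 1) hm (by omega)
    have hTn : X (T (i + n)) = w := by
      obtain ⟨m, rfl⟩ : ∃ m, n = m + 1 := ⟨n - 1, by omega⟩
      rw [← Nat.add_assoc, hT (i + m) (by omega), map_add, map_smul, hT0 m (by omega), smul_zero,
        add_zero, Nat.add_assoc]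
    have hEw : E (i + n - 1) w = 0 := by
      by_contra hne
      have key : ∀ l, i + n ≤ l → l ≤ d - i → E (i + n - 1) (X (T l)) ≠ 0 := by
        intro l hl
        induction l, hl using Nat.le_induction with
        | base => intro _; rwa [hTn]
        | succ l hl ihl =>
          intro hld
          rw [hT l (by omega), map_add, map_add, map_smul, map_smul]
          have h1 := (hU (l + 1) (by omega)).2 (i + n - 1) (by omega) (by
            show ¬ (l + 1 - 1 ≤ i + n - 1); omega)
          rw [h1, zero_add]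
          apply smul_ne_zero
          · rw [sub_ne_zero]
            intro h2
            have := S.D.inj i (by omega) (l + 1) (by omega) h2
            omega
          · exact ihl (by omega)
      have h1 := key (d - i) (by omega) le_rfl
      apply h1
      have h2 : T (d - i) = aeval A (tau (fun m => th (d - m)) i (d - i)) v := by
        simp only [T, tau]
        rw [Finset.prod_Ico_reflect (fun m => Polynomial.X - C (th m)) i (by omega)]
        congr 3
        rw [show d + 1 - (d - i) = i + 1 by omega, show d + 1 - i = d - i + 1 by omega]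
      rw [h2]
      have h3 := S.rev.tau_mem (show i ≤ d - i by omega) (Ki_le_rev hv)
      have h4 : X (aeval A (tau (fun m => th (d - m)) i (d - i)) v) ∈
          sp (fun i => E (d - i)) d {j | d - i - 1 ≤ j} :=
        (S.rev.lower_of_isSolution (S.isSolution_rev hX) (d - i) h3).2
      rw [sp_rev] at h4
      apply h4 (i + n - 1) (by omega)
      show ¬ (d - i - 1 ≤ d - (i + n - 1))
      omega
    have h5 : w ∈ Fs Es d (i + n) ⊓ GG E d (i + n) := by
      have h6 := hU (i + n) (by omega)
      refine ⟨h6.1, ?_⟩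
      intro j hj hj'
      have hj'' : ¬ (i + n ≤ j) := hj'
      by_cases hjj : j = i + n - 1
      · rw [hjj]; exact hEw
      · apply h6.2 j hj
        show ¬ (i + n - 1 ≤ j)
        omega
    rw [S.inf_eq_bot] at h5
    exact h5

end Sys

end Pool.Agent.MP_770f2c_al
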