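import Pool.Agent.Lib.MP_770f2c_al.Defs

/-!
# Spectral projections
-/

namespace Pool.Agent.MP_770f2c_al

open Polynomial

variable {K V : Type*} [Field K] [AddCommGroup V] [Module K V]

/-- `E 0, ..., E d` are the spectral projections of `A` -/
structure Dec (A : Module.End K V) (d : ℕ) (th : ℕ → K) (E : ℕ → Module.End K V) : Prop where
  inj : ∀ i ≤ d, ∀ j ≤ d, th i = th j → i = j
  sum : ∀ v, ∑ j ∈ Finset.range (d + 1), E j v = v
  comm : ∀ j ≤ d, ∀ v, E j (A v) = th j • E j v
  idem : ∀ i ≤ d, ∀ j ≤ d, ∀ v, E i (E j v) = if i = j then E j v else 0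

/-- the sum of the images of the `E j`, `j ∈ s` -/
def sp (E : ℕ → Module.End K V) (d : ℕ) (s : Set ℕ) : Submodule K V where
  carrier := {v | ∀ j ≤ d, j ∉ s → E j v = 0}
  add_mem' {x y} hx hy j hj hs := by rw [map_add, hx j hj hs, hy j hj hs, add_zero]
  zero_mem' j _ _ := map_zero _
  smul_mem' c x hx j hj hs := by rw [map_smul, hx j hj hs, smul_zero]

lemma mem_sp {E : ℕ → Module.End K V} {d : ℕ} {s : Set ℕ} {v : V} :
    v ∈ sp E d s ↔ ∀ j ≤ d, j ∉ s → E j v = 0 := Iff.rfl

section

variable {A : Module.End K V} {d : ℕ} {th : ℕ → K} {E : ℕ → Module.End K V}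

lemma sp_mono {s t : Set ℕ} (h : s ⊆ t) : sp E d s ≤ sp E d t :=
  fun _ hv j hj hs => hv j hj (fun h' => hs (h h'))

lemma sp_inf {s t : Set ℕ} : sp E d s ⊓ sp E d t = sp E d (s ∩ t) := by
  ext v
  constructor
  · rintro ⟨h1, h2⟩ j hj hs
    by_cases h : j ∈ s
    · exact h2 j hj (fun h' => hs ⟨h, h'⟩)
    · exact h1 j hj h
  · intro h
    exact ⟨fun j hj hs => h j hj (fun h' => hs h'.1), fun j hj hs => h j hj (fun h' => hs h'.2)⟩

lemma sp_congr {s t : Set ℕ} (h : ∀ j ≤ d, j ∈ s ↔ j ∈ t) : sp E d s = sp E d t := by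
  ext v
  constructor
  · intro hv j hj hs
    exact hv j hj (fun h' => hs ((h j hj).1 h'))
  · intro hv j hj hs
    exact hv j hj (fun h' => hs ((h j hj).2 h'))

namespace Dec

variable (D : Dec A d th E)

include D

lemma ext_zero {v : V} (h : ∀ j ≤ d, E j v = 0) : v = 0 := by
  rw [← D.sum v]
  exact Finset.sum_eq_zero fun j hj => h j (Nat.lt_succ_iff.1 (Finset.mem_range.1 hj))

lemma A_E {j : ℕ} (hj : j ≤ d) (v : V) : A (E j v) = th j • E j v := by
  rw [← sub_eq_zero]
  apply D.ext_zero
  intro i hi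
  rw [map_sub, map_smul, D.comm i hi, D.idem i hi j hj]
  split_ifs with h
  · rw [h, sub_self]
  · simp

lemma E_aeval {j : ℕ} (hj : j ≤ d) (p : K[X]) (v : V) :
    E j (aeval A p v) = p.eval (th j) • E j v := by
  induction p using Polynomial.induction_on' with
  | add p q hp hq => simp [hp, hq, add_smul]
  | monomial n a =>
    rw [aeval_monomial, eval_monomial]
    induction n with
    | zero => simp
    | succ n ih =>
      rw [pow_succ', pow_succ']
      have h1 : (algebraMap K (Module.End K V) a * (A * A ^ n)) v =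
          A ((algebraMap K (Module.End K V) a * A ^ n) v) := by
        simp [Algebra.algebraMap_eq_smul_one]
      rw [h1, D.comm j hj, ih, smul_smul]
      congr 1
      ring

omit D in
lemma sp_univ : sp E d Set.univ = (⊤ : Submodule K V) := by
  ext v
  simp [mem_sp]

omit D in
lemma sp_top {s : Set ℕ} (h : ∀ j ≤ d, j ∈ s) : sp E d s = (⊤ : Submodule K V) := by
  ext v
  simp only [mem_sp, Submodule.mem_top, iff_true]
  intro j hj hs
  exact absurd (h j hj) hs

lemma sp_bot {s : Set ℕ} (h : ∀ j ≤ d, j ∉ s) : sp E d s = (⊥ : Submodule K V) := by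
  rw [eq_bot_iff]
  intro v hv
  rw [Submodule.mem_bot]
  exact D.ext_zero fun j hj => hv j hj (h j hj)

lemma aeval_mem {s : Set ℕ} {v : V} (hv : v ∈ sp E d s) (p : K[X]) : aeval A p v ∈ sp E d s := by
  intro j hj hs
  rw [D.E_aeval hj, hv j hj hs, smul_zero]

lemma E_mem {j : ℕ} (hj : j ≤ d) (v : V) : E j v ∈ sp E d {j} := by
  intro i hi hs
  rw [D.idem i hi j hj, if_neg]
  exact fun h => hs h

lemma sp_disjoint {s t : Set ℕ} (h : ∀ j ≤ d, j ∈ s → j ∉ t) : sp E d s ⊓ sp E d t = ⊥ := by
  rw [sp_inf]
  apply D.sp_bot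
  rintro j hj ⟨h1, h2⟩
  exact h j hj h1 h2

lemma sp_sup {s t : Set ℕ} (h : ∀ j ≤ d, j ∈ s ∨ j ∈ t) : sp E d s ⊔ sp E d t = ⊤ := by
  classical
  rw [eq_top_iff]
  rintro v -
  rw [← D.sum v]
  apply Submodule.sum_mem
  intro j hj
  have hj' := Nat.lt_succ_iff.1 (Finset.mem_range.1 hj)
  rcases h j hj' with h | h
  · apply Submodule.mem_sup_left
    exact sp_mono (by simpa using h) (D.E_mem hj' v)
  · apply Submodule.mem_sup_right
    exact sp_mono (by simpa using h) (D.E_mem hj' v)

lemma mem_eigenspace {i : ℕ} (hi : i ≤ d) {v : V} :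
    v ∈ A.eigenspace (th i) ↔ v ∈ sp E d {i} := by
  rw [Module.End.mem_eigenspace_iff]
  constructor
  · intro h j hj hs
    have h1 := D.comm j hj v
    rw [h, map_smul] at h1
    have h2 : (th i - th j) • E j v = 0 := by rw [sub_smul, h1, sub_self]
    rcases smul_eq_zero.1 h2 with h3 | h3
    · exact absurd (D.inj i hi j hj (sub_eq_zero.1 h3)).symm hs
    · exact h3
  · intro h
    rw [← D.sum v, map_sum, Finset.smul_sum]
    refine Finset.sum_congr rfl fun j hj => ?_
    have hj' := Nat.lt_succ_iff.1 (Finset.mem_range.1 hj)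
    by_cases hji : j = i
    · rw [D.A_E hj', hji]
    · rw [h j hj' (by simpa using hji), map_zero, smul_zero]

lemma eigSum_eq {s : Set ℕ} (hs : ∀ j ∈ s, j ≤ d) : eigSum A th s = sp E d s := by
  apply le_antisymm
  · apply iSup₂_le
    intro j hj v hv
    rw [D.mem_eigenspace (hs j hj)] at hv
    exact sp_mono (by simpa using hj) hv
  · intro v hv
    rw [← D.sum v]
    apply Submodule.sum_mem
    intro j hj
    have hj' := Nat.lt_succ_iff.1 (Finset.mem_range.1 hj)
    by_cases hjs : j ∈ s
    · apply Submodule.mem_iSup_of_mem j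
      apply Submodule.mem_iSup_of_mem hjs
      rw [D.mem_eigenspace hj']
      exact D.E_mem hj' v
    · rw [hv j hj' hjs]
      exact Submodule.zero_mem _

/-- a linear map which maps each `V_i` into a submodule -/
lemma map_sp_le {s : Set ℕ} {X : Module.End K V} {P : Submodule K V}
    (h : ∀ i ≤ d, i ∈ s → ∀ v ∈ sp E d {i}, X v ∈ P) {v : V} (hv : v ∈ sp E d s) : X v ∈ P := by
  rw [← D.sum v, map_sum]
  apply Submodule.sum_mem
  intro j hj
  have hj' := Nat.lt_succ_iff.1 (Finset.mem_range.1 hj)
  by_cases hjs : j ∈ s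
  · exact h j hj' hjs _ (D.E_mem hj' v)
  · rw [hv j hj' hjs, map_zero]
    exact Submodule.zero_mem _

/-- reversal of the ordering -/
lemma rev : Dec A d (fun i => th (d - i)) (fun i => E (d - i)) where
  inj := by
    intro i hi j hj h
    have := D.inj (d - i) (Nat.sub_le _ _) (d - j) (Nat.sub_le _ _) h
    omega
  sum := by
    intro v
    conv_rhs => rw [← D.sum v, ← Finset.sum_range_reflect (fun j => E j v) (d + 1)]
    refine Finset.sum_congr rfl fun j _ => ?_
    simp
  comm := fun j _ v => D.comm (d - j) (Nat.sub_le _ _) v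
  idem := by
    intro i hi j hj v
    rw [D.idem (d - i) (Nat.sub_le _ _) (d - j) (Nat.sub_le _ _)]
    by_cases h : i = j
    · rw [if_pos h, if_pos (by rw [h])]
    · rw [if_neg h, if_neg (by omega)]

end Dec

lemma sp_rev {s : Set ℕ} : sp (fun i => E (d - i)) d s = sp E d {j | d - j ∈ s} := by
  ext v
  constructor
  · intro h j hj hs
    have := h (d - j) (Nat.sub_le _ _) hs
    simpa [Nat.sub_sub_self hj] using this
  · intro h j hj hs
    apply h (d - j) (Nat.sub_le _ _)
    show ¬ (d - (d - j) ∈ s)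
    rwa [Nat.sub_sub_self hj]

/-- existence of the spectral projections -/
lemma exists_dec (hinj : ∀ i ≤ d, ∀ j ≤ d, th i = th j → i = j)
    (htop : eigSum A th {j | j ≤ d} = ⊤) : ∃ E : ℕ → Module.End K V, Dec A d th E := by
  classical
  let s := Finset.range (d + 1)
  have hs : ∀ j, j ∈ s ↔ j ≤ d := fun j => by simp [s]
  have hinj' : Set.InjOn th s := by
    intro i hi j hj h
    exact hinj i ((hs i).1 hi) j ((hs j).1 hj) h
  let E : ℕ → Module.End K V := fun j => aeval A (Lagrange.basis s th j)
  have hE : ∀ i ≤ d, ∀ v ∈ A.eigenspace (th i), ∀ p : K[X], aeval A p v = p.eval (th i) • v := by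
    intro i _ v hv p
    rw [Module.End.mem_eigenspace_iff] at hv
    induction p using Polynomial.induction_on' with
    | add p q hp hq => simp [hp, hq, add_smul]
    | monomial n a =>
      rw [aeval_monomial, eval_monomial]
      induction n with
      | zero => simp
      | succ n ih =>
        rw [pow_succ', pow_succ']
        have h1 : (algebraMap K (Module.End K V) a * (A * A ^ n)) v =
            A ((algebraMap K (Module.End K V) a * A ^ n) v) := by
          simp [Algebra.algebraMap_eq_smul_one]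
        rw [h1, ih, map_smul, hv, smul_smul]
        congr 1
        ring
  have key : ∀ P : V → Prop, (∀ v w, P v → P w → P (v + w)) → P 0 →
      (∀ i ≤ d, ∀ v ∈ A.eigenspace (th i), P v) → ∀ v, P v := by
    intro P hadd h0 h v
    have hv : v ∈ eigSum A th {j | j ≤ d} := by rw [htop]; trivial
    unfold eigSum at hv
    rw [iSup_subtype'] at hv
    refine Submodule.iSup_induction _ (motive := P) hv ?_ h0 hadd
    rintro ⟨i, hi⟩ v hv
    exact h i hi v hv
  have hself : ∀ i ≤ d, ∀ v ∈ A.eigenspace (th i), ∀ j ≤ d, E j v = if i = j then v else 0 := by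
    intro i hi v hv j hj
    show aeval A (Lagrange.basis s th j) v = _
    rw [hE i hi v hv]
    split_ifs with h
    · rw [h, Lagrange.eval_basis_self hinj' ((hs j).2 hj), one_smul]
    · rw [Lagrange.eval_basis_of_ne (fun h' => h h'.symm) ((hs i).2 hi), zero_smul]
  refine ⟨E, hinj, ?_, ?_, ?_⟩
  · intro v
    revert v
    apply key
    · intro v w hv hw
      simp only [map_add, Finset.sum_add_distrib, hv, hw]
    · simp
    · intro i hi v hv
      rw [Finset.sum_congr rfl (fun j hj => hself i hi v hv j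
        (Nat.lt_succ_iff.1 (Finset.mem_range.1 hj)))]
      simp [hi]
  · intro j hj
    apply key
    · intro v w hv hw
      simp only [map_add, hv, hw, smul_add]
    · simp
    · intro i hi v hv
      have h1 := hv
      rw [Module.End.mem_eigenspace_iff] at h1
      rw [h1, map_smul, hself i hi v hv j hj]
      split_ifs with h
      · rw [h]
      · simp
  · intro i hi j hj
    apply key
    · intro v w hv hw
      simp only [map_add, hv, hw]
      split_ifs <;> simp
    · simp
    · intro k hk v hv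
      rw [hself k hk v hv j hj]
      split_ifs with h1 h2 h2
      · rw [hself k hk v hv i hi, if_pos (by omega)]
      · rw [hself k hk v hv i hi, if_neg (by omega)]
      · simp
      · simp

end

end Pool.Agent.MP_770f2c_al
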