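import Mathlib

/-!
# Tridiagonal pairs and maps lowering the dual eigenspace flag, definitions
-/

namespace Pool.Agent.MP_770f2c_al

open Polynomial

variable {K V : Type*} [Field K] [AddCommGroup V] [Module K V]

/-- The sum of the eigenspaces of `A` for the eigenvalues `th j`, `j ∈ s`. -/
def eigSum (A : Module.End K V) (th : ℕ → K) (s : Set ℕ) : Submodule K V :=
  ⨆ j ∈ s, A.eigenspace (th j)

/-- `A, B` is a tridiagonal pair on `V`: the eigenspaces of `A`, in the order `V_0, ..., V_d`, are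
those of the eigenvalues `th 0, ..., th d`, and the eigenspaces of `B` (the map `A*`), in the order
`V*_0, ..., V*_d`, are those of the eigenvalues `ths 0, ..., ths d`. -/
structure IsTridiagonalPair (A B : Module.End K V) (d : ℕ) (th ths : ℕ → K) : Prop where
  th_inj : ∀ i ≤ d, ∀ j ≤ d, th i = th j → i = j
  ths_inj : ∀ i ≤ d, ∀ j ≤ d, ths i = ths j → i = j
  ne_bot : ∀ i ≤ d, A.eigenspace (th i) ≠ ⊥
  ne_bot' : ∀ i ≤ d, B.eigenspace (ths i) ≠ ⊥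
  top : eigSum A th {j | j ≤ d} = ⊤
  top' : eigSum B ths {j | j ≤ d} = ⊤
  tri : ∀ i ≤ d, ∀ v ∈ A.eigenspace (th i), B v ∈ eigSum A th {j | j ≤ d ∧ i ≤ j + 1 ∧ j ≤ i + 1}
  tri' : ∀ i ≤ d, ∀ v ∈ B.eigenspace (ths i),
    A v ∈ eigSum B ths {j | j ≤ d ∧ i ≤ j + 1 ∧ j ≤ i + 1}
  irred : ∀ W : Submodule K V, (∀ w ∈ W, A w ∈ W) → (∀ w ∈ W, B w ∈ W) → W = ⊥ ∨ W = ⊤

/-- `X V*_i ⊆ V*_0 + ... + V*_(i-1)` and `X V_i ⊆ V_(i-1) + V_i + V_(i+1)` for `0 ≤ i ≤ d`. -/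
structure IsSolution (A B : Module.End K V) (d : ℕ) (th ths : ℕ → K) (X : Module.End K V) :
    Prop where
  low : ∀ i ≤ d, ∀ v ∈ B.eigenspace (ths i), X v ∈ eigSum B ths {j | j < i}
  tri : ∀ i ≤ d, ∀ v ∈ A.eigenspace (th i), X v ∈ eigSum A th {j | j ≤ d ∧ i ≤ j + 1 ∧ j ≤ i + 1}

/-- `K_i = (V*_0 + ... + V*_i) ∩ (V_i + ... + V_(d-i))`; it is zero if `2 i > d`. -/
def KK (A B : Module.End K V) (d : ℕ) (th ths : ℕ → K) (i : ℕ) : Submodule K V :=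
  eigSum B ths {j | j ≤ i} ⊓ eigSum A th {j | i ≤ j ∧ i + j ≤ d}

/-- The polynomial `τ_ij = (x - θ_i) (x - θ_(i+1)) ... (x - θ_(j-1))`. -/
noncomputable def tau (th : ℕ → K) (i j : ℕ) : K[X] := ∏ m ∈ Finset.Ico i j, (X - C (th m))

/-- `a_ij = ∑_{i ≤ m < j} (θ_m - θ_(d-m))`. -/
def aa (d : ℕ) (th : ℕ → K) (i j : ℕ) : K := ∑ m ∈ Finset.Ico i j, (th m - th (d - m))

/-- `b_ij = ∏_{i ≤ m < j} (θ_i - θ_(d-m)) / ∏_{i-1 ≤ m < j-1} (θ_(i-1) - θ_(d-m))` for `i ≥ 1`,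
`b_0j = 0`. -/
def bb (d : ℕ) (th : ℕ → K) (i j : ℕ) : K :=
  if i = 0 then 0 else
    (∏ m ∈ Finset.Ico i j, (th i - th (d - m))) /
      ∏ m ∈ Finset.Ico (i - 1) (j - 1), (th (i - 1) - th (d - m))

/-- `g_ij = ∏_{j ≤ m < d-i} (θ_(i+1) - θ_m) / ∏_{j < m ≤ d-i} (θ_i - θ_m)` for `j ≥ i + 2`,
`g_ij = 0` for `j < i + 2`. -/
def gg (d : ℕ) (th : ℕ → K) (i j : ℕ) : K :=
  if j < i + 2 then 0 else
    (∏ m ∈ Finset.Ico j (d - i), (th (i + 1) - th m)) /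
      ∏ m ∈ Finset.Ioc j (d - i), (th i - th m)

/-- `X` is given by the families of linear maps `α_i : K_i → K_i`, `β_i : K_i → K_(i-1)`,
`γ_i : K_i → K_(i+1)`: for `i ≤ j ≤ d - i` and `v ∈ K_i`,
`X τ_ij(A) v = a_ij τ_i,j-1(A) α_i(v) + b_ij τ_i-1,j-1(A) β_i(v) + g_ij τ_i+1,j-1(A) γ_i(v)`. -/
def IsGivenBy (A : Module.End K V) (d : ℕ) (th : ℕ → K) (Kf : ℕ → Submodule K V)
    (α : ∀ i, Kf i →ₗ[K] Kf i) (β : ∀ i, Kf i →ₗ[K] Kf (i - 1)) (γ : ∀ i, Kf i →ₗ[K] Kf (i + 1))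
    (X : Module.End K V) : Prop :=
  ∀ i j, i ≤ j → i + j ≤ d → ∀ v : Kf i, X (aeval A (tau th i j) (v : V)) =
    aa d th i j • aeval A (tau th i (j - 1)) (α i v : V) +
    bb d th i j • aeval A (tau th (i - 1) (j - 1)) (β i v : V) +
    gg d th i j • aeval A (tau th (i + 1) (j - 1)) (γ i v : V)

/-- The `K`-subspace of `End(V)` formed by the solutions. -/
def solutionSpace (A B : Module.End K V) (d : ℕ) (th ths : ℕ → K) :
    Submodule K (Module.End K V) where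
  carrier := {X | IsSolution A B d th ths X}
  add_mem' hX hY := ⟨fun i hi v hv => Submodule.add_mem _ (hX.low i hi v hv) (hY.low i hi v hv),
    fun i hi v hv => Submodule.add_mem _ (hX.tri i hi v hv) (hY.tri i hi v hv)⟩
  zero_mem' := ⟨fun _ _ _ _ => Submodule.zero_mem _, fun _ _ _ _ => Submodule.zero_mem _⟩
  smul_mem' c _ hX := ⟨fun i hi v hv => Submodule.smul_mem _ c (hX.low i hi v hv),
    fun i hi v hv => Submodule.smul_mem _ c (hX.tri i hi v hv)⟩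

end Pool.Agent.MP_770f2c_al
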