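import Pool.Agent.Lib.MP_770f2c_al.Final

/-!
# The dimension of the space of solutions
-/

namespace Pool.Agent.MP_770f2c_al

open Polynomial

variable {K V : Type*} [Field K] [AddCommGroup V] [Module K V] [FiniteDimensional K V]

section

variable (Kf : ℕ → Submodule K V) (d : ℕ)

/-- the parameter space -/
abbrev Par : Type _ :=
  (∀ i : Fin ((d + 1) / 2), Kf i →ₗ[K] Kf i) × (∀ i : Fin (d / 2), Kf (i + 1) →ₗ[K] Kf i) ×
    (∀ i : Fin (d / 2), Kf i →ₗ[K] Kf (i + 1))

variable {Kf d}

/-- the family `α` -/
def Par.al (p : Par Kf d) (i : ℕ) : Kf i →ₗ[K] Kf i :=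
  if h : i < (d + 1) / 2 then p.1 ⟨i, h⟩ else 0

/-- the family `β` -/
def Par.be (p : Par Kf d) : ∀ i : ℕ, Kf i →ₗ[K] Kf (i - 1)
  | 0 => 0
  | m + 1 => if h : m < d / 2 then p.2.1 ⟨m, h⟩ else 0

/-- the family `γ` -/
def Par.ga (p : Par Kf d) (i : ℕ) : Kf i →ₗ[K] Kf (i + 1) :=
  if h : i < d / 2 then p.2.2 ⟨i, h⟩ else 0

omit [FiniteDimensional K V] in
lemma Par.add_al (p q : Par Kf d) (i : ℕ) (v : Kf i) :
    Par.al (p + q) i v = Par.al p i v + Par.al q i v := by
  unfold Par.al
  split_ifs <;> simp

omit [FiniteDimensional K V] in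
lemma Par.add_be (p q : Par Kf d) (i : ℕ) (v : Kf i) :
    Par.be (p + q) i v = Par.be p i v + Par.be q i v := by
  cases i with
  | zero => simp [Par.be]
  | succ m =>
    simp only [Par.be]
    split_ifs <;> simp

omit [FiniteDimensional K V] in
lemma Par.add_ga (p q : Par Kf d) (i : ℕ) (v : Kf i) :
    Par.ga (p + q) i v = Par.ga p i v + Par.ga q i v := by
  unfold Par.ga
  split_ifs <;> simp

omit [FiniteDimensional K V] in
lemma Par.smul_al (c : K) (p : Par Kf d) (i : ℕ) (v : Kf i) :
    Par.al (c • p) i v = c • Par.al p i v := by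
  unfold Par.al
  split_ifs <;> simp

omit [FiniteDimensional K V] in
lemma Par.smul_be (c : K) (p : Par Kf d) (i : ℕ) (v : Kf i) :
    Par.be (c • p) i v = c • Par.be p i v := by
  cases i with
  | zero => simp [Par.be]
  | succ m =>
    simp only [Par.be]
    split_ifs <;> simp

omit [FiniteDimensional K V] in
lemma Par.smul_ga (c : K) (p : Par Kf d) (i : ℕ) (v : Kf i) :
    Par.ga (c • p) i v = c • Par.ga p i v := by
  unfold Par.ga
  split_ifs <;> simp

end

/-- the dimension of the space of solutions -/
theorem finrank_solutionSpace {A B : Module.End K V} {d : ℕ} {th ths : ℕ → K}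
    (T : IsTridiagonalPair A B d th ths) :
    Module.finrank K (solutionSpace A B d th ths) =
      ∑ i ∈ Finset.range ((d + 1) / 2), Module.finrank K (KK A B d th ths i) ^ 2 +
      2 * ∑ i ∈ Finset.range (d / 2), Module.finrank K (KK A B d th ths i) *
        Module.finrank K (KK A B d th ths (i + 1)) := by
  obtain ⟨h1, h2, h3⟩ := main T
  generalize KK A B d th ths = Kf at *
  choose Φ hΦ hΦu using fun p : Par Kf d => h1 p.al p.be p.ga
  let L : Par Kf d →ₗ[K] solutionSpace A B d th ths :=
    { toFun := fun p => ⟨Φ p, (h2 _).2 ⟨_, _, _, hΦ p⟩⟩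
      map_add' := by
        intro p q
        apply Subtype.ext
        symm
        apply hΦu (p + q)
        intro i j hij hijd v
        have e1 := hΦ p i j hij hijd v
        have e2 := hΦ q i j hij hijd v
        show Φ p _ + Φ q _ = _
        rw [e1, e2, Par.add_al, Par.add_be, Par.add_ga]
        simp only [Submodule.coe_add, map_add, smul_add]
        abel
      map_smul' := by
        intro c p
        apply Subtype.ext
        symm
        apply hΦu (c • p)
        intro i j hij hijd v
        have e1 := hΦ p i j hij hijd v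
        show c • Φ p _ = _
        rw [e1, Par.smul_al, Par.smul_be, Par.smul_ga]
        simp only [Submodule.coe_smul, map_smul, smul_add]
        rw [smul_comm c, smul_comm c, smul_comm c] }
  have hinj : Function.Injective L := by
    intro p q hpq
    have e : Φ p = Φ q := congrArg Subtype.val hpq
    have e1 := hΦ q
    rw [← e] at e1
    obtain ⟨g1, g2, g3⟩ := h3 _ _ _ _ _ _ _ (hΦ p) e1
    refine Prod.ext ?_ (Prod.ext ?_ ?_)
    · funext i
      have := g1 i (by have := i.2; omega)
      simpa [Par.al, i.2] using this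
    · funext i
      have := g2 (i + 1) (by omega)
      simpa [Par.be, i.2] using this
    · funext i
      have := g3 i
      simpa [Par.ga, i.2] using this
  have hsurj : Function.Surjective L := by
    rintro ⟨X, hX⟩
    obtain ⟨α, β, γ, hg⟩ := (h2 X).1 hX
    let p : Par Kf d := (fun i => α i, fun i => β (i + 1), fun i => γ i)
    refine ⟨p, Subtype.ext ?_⟩
    symm
    apply hΦu p
    intro i j hij hijd v
    rw [hg i j hij hijd v]
    have e1 : aa d th i j • aeval A (tau th i (j - 1)) (α i v : V) =
        aa d th i j • aeval A (tau th i (j - 1)) (p.al i v : V) := by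
      by_cases hi : i < (d + 1) / 2
      · simp only [Par.al, dif_pos hi, p]
      · obtain rfl : i = j := by omega
        rw [aa_self, zero_smul, zero_smul]
    have e2 : bb d th i j • aeval A (tau th (i - 1) (j - 1)) (β i v : V) =
        bb d th i j • aeval A (tau th (i - 1) (j - 1)) (p.be i v : V) := by
      cases i with
      | zero => rw [bb_zero, zero_smul, zero_smul]
      | succ m =>
        have hm : m < d / 2 := by omega
        simp only [Par.be, dif_pos hm, p]
    have e3 : gg d th i j • aeval A (tau th (i + 1) (j - 1)) (γ i v : V) =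
        gg d th i j • aeval A (tau th (i + 1) (j - 1)) (p.ga i v : V) := by
      by_cases hi : i < d / 2
      · simp only [Par.ga, dif_pos hi, p]
      · rw [gg_lt d th (by omega), zero_smul, zero_smul]
    rw [e1, e2, e3]
  rw [← (LinearEquiv.ofBijective L ⟨hinj, hsurj⟩).finrank_eq, Module.finrank_prod,
    Module.finrank_prod, Module.finrank_pi_fintype, Module.finrank_pi_fintype,
    Module.finrank_pi_fintype]
  simp only [Module.finrank_linearMap]
  rw [Fin.sum_univ_eq_sum_range (fun i => Module.finrank K (Kf i) * Module.finrank K (Kf i)),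
    Fin.sum_univ_eq_sum_range (fun i => Module.finrank K (Kf (i + 1)) * Module.finrank K (Kf i)),
    Fin.sum_univ_eq_sum_range (fun i => Module.finrank K (Kf i) * Module.finrank K (Kf (i + 1)))]
  have e4 : ∑ i ∈ Finset.range (d / 2), Module.finrank K (Kf (i + 1)) * Module.finrank K (Kf i) =
      ∑ i ∈ Finset.range (d / 2), Module.finrank K (Kf i) * Module.finrank K (Kf (i + 1)) :=
    Finset.sum_congr rfl fun i _ => mul_comm _ _
  rw [e4, two_mul]
  congr 1
  exact Finset.sum_congr rfl fun i _ => by rw [sq]

end Pool.Agent.MP_770f2c_al
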