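import Pool.Agent.Lib.MP_770f2c_al.Cases

/-!
# The eigenvalue recurrences
-/

namespace Pool.Agent.MP_770f2c_al

open Polynomial

variable {K V : Type*} [Field K] [AddCommGroup V] [Module K V]

namespace Sys

variable {A B : Module.End K V} {d : ℕ} {th ths : ℕ → K} {E Es : ℕ → Module.End K V}
variable (S : Sys A B d th ths E Es)

include S

lemma pow_mem {v : V} (hv : v ∈ Fs Es d 1) (i : ℕ) : (A ^ i) v ∈ Fs Es d (i + 1) := by
  induction i with
  | zero => simpa using hv
  | succ i ih =>
    rw [pow_succ', Module.End.mul_apply]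
    exact S.A_Fs ih

lemma Es_aeval {v : V} (hv : v ∈ Fs Es d 1) {k : ℕ} (hk : k ≤ d) {p : K[X]}
    (hp : p.natDegree ≤ k) : Es k (aeval A p v) = p.coeff k • Es k ((A ^ k) v) := by
  rw [aeval_eq_sum_range' (Nat.lt_succ_of_le hp), LinearMap.sum_apply, map_sum,
    Finset.sum_range_succ, Finset.sum_eq_zero, zero_add, LinearMap.smul_apply, map_smul]
  intro i hi
  rw [Finset.mem_range] at hi
  rw [LinearMap.smul_apply, map_smul, S.pow_mem hv i k hk, smul_zero]
  show ¬ (k < i + 1)
  omega

lemma aeval_mem_Fs {v : V} (hv : v ∈ Fs Es d 1) {k : ℕ} {p : K[X]}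
    (hp : p.natDegree ≤ k) : aeval A p v ∈ Fs Es d (k + 1) := by
  rw [aeval_eq_sum_range' (Nat.lt_succ_of_le hp), LinearMap.sum_apply]
  apply Submodule.sum_mem
  intro i hi
  rw [Finset.mem_range] at hi
  rw [LinearMap.smul_apply]
  apply Submodule.smul_mem
  exact sp_mono (fun j (hj : j < i + 1) => (by show j < k + 1; omega)) (S.pow_mem hv i)

omit [AddCommGroup V] [Module K V] S in
lemma tau_monic (i j : ℕ) : (tau th i j).Monic := monic_prod_X_sub_C _ _

omit [AddCommGroup V] [Module K V] S in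
lemma tau_natDegree (i j : ℕ) : (tau th i j).natDegree = j - i := by
  rw [tau, natDegree_prod_of_monic _ _ (fun m _ => monic_X_sub_C _)]
  simp

lemma Es_pow_ne {v : V} (hv : v ∈ Fs Es d 1) (hv0 : v ≠ 0) {k : ℕ} (hk : k ≤ d) :
    Es k ((A ^ k) v) ≠ 0 := by
  intro h0
  apply hv0
  have hU : v ∈ UU E Es d 0 := ⟨hv, by rw [GG_zero]; trivial⟩
  have hdeg : (tau th 0 k).natDegree = k := by rw [tau_natDegree, Nat.sub_zero]
  have h1 : Es k (aeval A (tau th 0 k) v) = 0 := by
    rw [S.Es_aeval hv hk hdeg.le, h0, smul_zero]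
  have h2 : aeval A (tau th 0 k) v ∈ UU E Es d k := S.tau_mem (Nat.zero_le _) hU
  have h3 : aeval A (tau th 0 k) v ∈ Fs Es d k ⊓ GG E d k := by
    refine ⟨?_, h2.2⟩
    intro j hj hjk
    by_cases hjk' : j = k
    · rw [hjk', h1]
    · apply h2.1 j hj
      have : ¬ j < k := hjk
      show ¬ j < k + 1
      omega
  rw [S.inf_eq_bot k, Submodule.mem_bot] at h3
  exact S.tau_inj (Nat.zero_le _) (by omega) hU h3

lemma op_identity {Z : K[X]}
    (hZ : ∀ i, i + 1 ≤ d → Z.eval (th (i + 1)) - Z.eval (th i) =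
      th i * th (i + 1) * (th (i + 1) - th i)) (v : V) :
    A (A (B (A v))) - A (B (A (A v))) = aeval A Z (B v) - B (aeval A Z v) := by
  have key : ∀ i ≤ d, ∀ v ∈ sp E d {i},
      A (A (B (A v))) - A (B (A (A v))) = aeval A Z (B v) - B (aeval A Z v) := by
    intro i hi v hv
    have hAv : A v = th i • v := by
      have := (S.D.mem_eigenspace hi).2 hv
      rwa [Module.End.mem_eigenspace_iff] at this
    have hZv : aeval A Z v = Z.eval (th i) • v := by
      rw [← sub_eq_zero]
      apply S.D.ext_zero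
      intro j hj
      rw [map_sub, map_smul, S.D.E_aeval hj]
      by_cases hji : j = i
      · rw [hji, sub_self]
      · rw [hv j hj (by simpa using hji), smul_zero, smul_zero, sub_zero]
    rw [← sub_eq_zero]
    apply S.D.ext_zero
    intro j hj
    simp only [map_sub, S.D.comm j hj, hAv, map_smul, S.D.E_aeval hj, hZv]
    by_cases hnear : i ≤ j + 1 ∧ j ≤ i + 1
    · have h1 : (th j * (th j * th i) - th j * (th i * th i) - (Z.eval (th j) - Z.eval (th i)))
          = 0 := by
        rcases lt_trichotomy i j with h | h | h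
        · obtain rfl : j = i + 1 := by omega
          have := hZ i hj
          linear_combination -this
        · rw [h]; ring
        · obtain rfl : i = j + 1 := by omega
          have := hZ j hi
          linear_combination this
      have h2 := congrArg (fun c => c • E j (B v)) h1
      simp only [zero_smul] at h2
      rw [← h2]
      module
    · have h1 : E j (B v) = 0 := S.triE i hi v hv j hj hnear
      rw [h1]
      simp
  have hv : v ∈ sp E d Set.univ := by rw [Dec.sp_univ]; trivial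
  rw [← sub_eq_zero]
  have h1 := S.D.map_sp_le (s := Set.univ) (P := ⊥)
    (X := A * (A * (B * A)) - A * (B * (A * A)) - (aeval A Z * B - B * aeval A Z))
    (fun i hi _ w hw => by
      rw [Submodule.mem_bot]
      have := key i hi w hw
      rw [← sub_eq_zero] at this
      simpa using this) hv
  rw [Submodule.mem_bot] at h1
  simpa using h1

/-- the eigenvalues satisfy the recurrences -/
lemma exists_rec : ∃ β γ ρ : K, Rec d th β γ ρ := by
  classical
  by_cases hd : d ≤ 2
  · refine ⟨0, th 0 + th 2, th 0 ^ 2 + th 1 ^ 2 - (th 0 + th 2) * (th 0 + th 1), ?_, ?_⟩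
    · intro j hj
      obtain rfl : j = 0 := by omega
      ring
    · intro j hj
      have : j = 0 ∨ j = 1 := by omega
      rcases this with rfl | rfl
      · ring
      · ring
  push Not at hd
  let w : ℕ → K := fun n => Nat.rec 0 (fun i wi => wi + th i * th (i + 1) * (th (i + 1) - th i)) n
  have hw : ∀ i, w (i + 1) = w i + th i * th (i + 1) * (th (i + 1) - th i) := fun _ => rfl
  let s := Finset.range (d + 1)
  have hs : ∀ j, j ∈ s ↔ j ≤ d := fun j => by simp [s]
  have hinj' : Set.InjOn th s := by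
    intro i hi j hj h
    exact S.D.inj i ((hs i).1 hi) j ((hs j).1 hj) h
  let Z : K[X] := Lagrange.interpolate s th w
  have hZe : ∀ i ≤ d, Z.eval (th i) = w i := fun i hi =>
    Lagrange.eval_interpolate_at_node w hinj' ((hs i).2 hi)
  have hZ : ∀ i, i + 1 ≤ d → Z.eval (th (i + 1)) - Z.eval (th i) =
      th i * th (i + 1) * (th (i + 1) - th i) := by
    intro i hi
    rw [hZe _ hi, hZe _ (by omega), hw]
    ring
  have hop := S.op_identity hZ
  have hZd : Z.natDegree ≤ d := by
    by_cases hZ0 : Z = 0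
    · rw [hZ0]; simp
    · have h1 := Lagrange.degree_interpolate_lt w hinj'
      have h2 : s.card = d + 1 := by simp [s]
      rw [h2] at h1
      have h3 := (natDegree_lt_iff_degree_lt hZ0).2 h1
      omega
  obtain ⟨v, hv, hv0⟩ := (Submodule.ne_bot_iff _).1 (S.nes 0 (Nat.zero_le _))
  have hvF : v ∈ Fs Es d 1 := sp_mono (fun j hj => by
    rw [Set.mem_singleton_iff.1 hj]; show 0 < 1; omega) hv
  have hBv : B v = ths 0 • v := by
    have := (S.Ds.mem_eigenspace (Nat.zero_le _)).2 hv
    rwa [Module.End.mem_eigenspace_iff] at this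
  have hn : ∀ n ≤ d, Es n (aeval A Z (B v) - B (aeval A Z v)) =
      (ths 0 - ths n) • Es n (aeval A Z v) := by
    intro n hnd
    rw [map_sub, hBv, map_smul, map_smul, S.Ds.comm n hnd, sub_smul]
  have hZ3 : Z.natDegree ≤ 3 := by
    by_contra hcon
    push Not at hcon
    have h1 := hn _ hZd
    rw [← hop, map_sub] at h1
    have m1 : A (A (B (A v))) ∈ Fs Es d 4 := by
      apply S.A_Fs
      apply S.A_Fs
      have h2 : A v ∈ Fs Es d 2 := S.A_Fs hvF
      intro j hj hj'
      rw [S.Ds.comm j hj, h2 j hj hj', smul_zero]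
    have m2 : A (B (A (A v))) ∈ Fs Es d 4 := by
      apply S.A_Fs
      have h2 : A (A v) ∈ Fs Es d 3 := S.A_Fs (S.A_Fs hvF)
      intro j hj hj'
      rw [S.Ds.comm j hj, h2 j hj hj', smul_zero]
    rw [m1 _ hZd (by show ¬ Z.natDegree < 4; omega), m2 _ hZd (by show ¬ Z.natDegree < 4; omega),
      sub_zero, S.Es_aeval hvF hZd le_rfl] at h1
    rcases smul_eq_zero.1 h1.symm with h2 | h2
    · have := S.Ds.inj 0 (Nat.zero_le _) _ hZd (sub_eq_zero.1 h2)
      omega
    · rcases smul_eq_zero.1 h2 with h3 | h3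
      · rw [coeff_natDegree, leadingCoeff_eq_zero] at h3
        rw [h3, natDegree_zero] at hcon
        omega
      · exact S.Es_pow_ne hvF hv0 hZd h3
  have hz3 : (ths 0 - ths 3) * Z.coeff 3 = ths 1 - ths 2 := by
    have h1 := hn 3 (by omega)
    rw [← hop, S.Es_aeval hvF (by omega) hZ3, smul_smul, map_sub] at h1
    have hp : (A ^ 3) v = A (A (A v)) := by
      simp [pow_succ]
    have e1 : Es 3 (A (A (B (A v)))) = ths 1 • Es 3 ((A ^ 3) v) := by
      have h2 : B (A v) - ths 1 • A v ∈ Fs Es d 1 := by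
        have h3 : A v ∈ Fs Es d (1 + 1) ⊓ GG E d 0 := ⟨S.A_Fs hvF, by rw [GG_zero]; trivial⟩
        exact (S.B_sub_mem h3).1
      have h4 := S.A_Fs (S.A_Fs h2) 3 (by omega) (by show ¬ 3 < 3; omega)
      rw [map_sub, map_smul, map_sub, map_smul, map_sub, map_smul, sub_eq_zero] at h4
      rw [h4, hp]
    have e2 : Es 3 (A (B (A (A v)))) = ths 2 • Es 3 ((A ^ 3) v) := by
      have h2 : B (A (A v)) - ths 2 • A (A v) ∈ Fs Es d 2 := by
        have h3 : A (A v) ∈ Fs Es d (2 + 1) ⊓ GG E d 0 :=
          ⟨S.A_Fs (S.A_Fs hvF), by rw [GG_zero]; trivial⟩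
        exact (S.B_sub_mem h3).1
      have h4 := S.A_Fs h2 3 (by omega) (by show ¬ 3 < 3; omega)
      rw [map_sub, map_smul, map_sub, map_smul, sub_eq_zero] at h4
      rw [h4, hp]
    rw [e1, e2, ← sub_smul, ← sub_eq_zero, ← sub_smul] at h1
    rcases smul_eq_zero.1 h1 with h2 | h2
    · linear_combination -h2
    · exact absurd h2 (S.Es_pow_ne hvF hv0 (by omega))
  have hz3' : Z.coeff 3 ≠ 0 := by
    intro h0
    rw [h0, mul_zero] at hz3
    have := S.Ds.inj 1 (by omega) 2 (by omega) (sub_eq_zero.1 hz3.symm)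
    omega
  have hZev : ∀ x, Z.eval x = Z.coeff 0 + Z.coeff 1 * x + Z.coeff 2 * x ^ 2 + Z.coeff 3 * x ^ 3 := by
    intro x
    rw [eval_eq_sum_range' (Nat.lt_succ_of_le hZ3)]
    simp [Finset.sum_range_succ]
  have two : ∀ j, j + 1 ≤ d → th j ^ 2 - ((Z.coeff 3)⁻¹ - 1) * th j * th (j + 1) +
      th (j + 1) ^ 2 - (-(Z.coeff 2 / Z.coeff 3)) * (th j + th (j + 1)) =
        -(Z.coeff 1 / Z.coeff 3) := by
    intro j hj
    have h1 := hZ j hj
    rw [hZev, hZev] at h1
    have h2 : th (j + 1) - th j ≠ 0 := by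
      rw [sub_ne_zero]
      intro h
      have := S.D.inj (j + 1) hj j (by omega) h
      omega
    have h3 : Z.coeff 1 + Z.coeff 2 * (th j + th (j + 1)) +
        Z.coeff 3 * (th j ^ 2 + th j * th (j + 1) + th (j + 1) ^ 2) = th j * th (j + 1) := by
      apply mul_right_cancel₀ h2
      linear_combination h1
    field_simp
    linear_combination h3
  refine ⟨(Z.coeff 3)⁻¹ - 1, -(Z.coeff 2 / Z.coeff 3), -(Z.coeff 1 / Z.coeff 3), ?_, two⟩
  intro j hj
  have h1 := two j (by omega)
  have h2 := two (j + 1) (by omega)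
  rw [show j + 1 + 1 = j + 2 by ring] at h2
  have h3 : th j - th (j + 2) ≠ 0 := by
    rw [sub_ne_zero]
    intro h
    have := S.D.inj j (by omega) (j + 2) hj h
    omega
  apply mul_left_cancel₀ h3
  linear_combination h1 - h2

end Sys

end Pool.Agent.MP_770f2c_al
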