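import Pool.Agent.Lib.MP_770f2c_al.Eig

/-!
# Existence of the maps given by three families
-/

namespace Pool.Agent.MP_770f2c_al

open Polynomial

variable {K V : Type*} [Field K] [AddCommGroup V] [Module K V]

namespace Sys

variable {A B : Module.End K V} {d : ℕ} {th ths : ℕ → K} {E Es : ℕ → Module.End K V}
variable (S : Sys A B d th ths E Es)

include S

lemma KK_eq (i : ℕ) : KK A B d th ths i = Ki E Es d i := by
  by_cases hi : i ≤ d
  · have h1 : eigSum B ths {j | j ≤ i} = Fs Es d (i + 1) := by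
      rw [S.Ds.eigSum_eq (s := {j | j ≤ i}) (fun j (hj : j ≤ i) => hj.trans hi)]
      apply sp_congr
      intro j _
      show j ≤ i ↔ j < i + 1
      omega
    have h2 : eigSum A th {j | i ≤ j ∧ i + j ≤ d} = sp E d {j | i ≤ j ∧ i + j ≤ d} :=
      S.D.eigSum_eq (fun j (hj : i ≤ j ∧ i + j ≤ d) => by omega)
    rw [KK, h1, h2]
  · have h2 : eigSum A th {j | i ≤ j ∧ i + j ≤ d} = ⊥ := by
      rw [S.D.eigSum_eq (s := {j | i ≤ j ∧ i + j ≤ d})
        (fun j (hj : i ≤ j ∧ i + j ≤ d) => by omega)]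
      apply S.D.sp_bot
      intro j hj
      show ¬ (i ≤ j ∧ i + j ≤ d)
      omega
    have h3 : sp E d {j | i ≤ j ∧ i + j ≤ d} = ⊥ := by
      apply S.D.sp_bot
      intro j hj
      show ¬ (i ≤ j ∧ i + j ≤ d)
      omega
    rw [KK, h2, inf_bot_eq, Ki, h3, inf_bot_eq]

/-- `K_i` is killed by `τ_i,k(A)` for `k > d - i` -/
lemma tau_kill {i k : ℕ} (hk : d < i + k) {v : V} (hv : v ∈ Ki E Es d i) :
    aeval A (tau th i k) v = 0 := by
  apply S.D.ext_zero
  intro m hm
  rw [S.D.E_aeval hm, eval_tau]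
  by_cases h : i ≤ m ∧ i + m ≤ d
  · rw [Finset.prod_eq_zero (i := m), zero_smul]
    · rw [Finset.mem_Ico]; omega
    · rw [sub_self]
  · rw [hv.2 m hm h, smul_zero]

/-- independence of the `τ_ij(A) K_i` for fixed `j` -/
lemma indep_row (j : ℕ) (k : ℕ → V) (hk : ∀ i, k i ∈ Ki E Es d i)
    (h0 : ∑ i ∈ (Finset.range (d + 1)).filter (fun i => i ≤ j ∧ i + j ≤ d),
      aeval A (tau th i j) (k i) = 0) (i : ℕ) (hij : i ≤ j) (hijd : i + j ≤ d) : k i = 0 := by
  induction i using Nat.strong_induction_on with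
  | _ i ih =>
    have h1 := congrArg (aeval A (tau th j (d - i))) h0
    rw [map_sum, map_zero, Finset.sum_eq_single i] at h1
    · rw [← aeval_tau_mul th A hij (by omega)] at h1
      exact S.tau_inj (by omega) (by omega) (Ki_le_UU (hk i)) h1
    · intro i' hi' hne
      rw [Finset.mem_filter] at hi'
      obtain ⟨-, h2, h3⟩ := hi'
      rw [← aeval_tau_mul th A h2 (by omega)]
      rcases lt_or_gt_of_ne hne with h4 | h4
      · rw [ih i' h4 h2 h3, map_zero]
      · exact S.tau_kill (by omega) (hk i')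
    · intro h
      exfalso
      apply h
      rw [Finset.mem_filter, Finset.mem_range]
      omega

/-- independence of the `U_j` -/
lemma indep_col (u : ℕ → V) (hu : ∀ j, u j ∈ UU E Es d j) (n : ℕ)
    (h0 : ∑ j ∈ Finset.range n, u j = 0) (j : ℕ) (hj : j < n) : u j = 0 := by
  induction n with
  | zero => omega
  | succ n ih =>
    rw [Finset.sum_range_succ] at h0
    have h1 : u n = 0 := by
      have h2 : u n ∈ Fs Es d n ⊓ GG E d n := by
        refine ⟨?_, (hu n).2⟩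
        have h3 : u n = -∑ j ∈ Finset.range n, u j := by
          rw [eq_neg_iff_add_eq_zero, add_comm]; exact h0
        rw [h3]
        apply Submodule.neg_mem
        apply Submodule.sum_mem
        intro j hj
        rw [Finset.mem_range] at hj
        exact sp_mono (fun m (hm : m < j + 1) => (by show m < n; omega)) (hu j).1
      rwa [S.inf_eq_bot, Submodule.mem_bot] at h2
    rw [h1, add_zero] at h0
    by_cases hjn : j = n
    · rw [hjn, h1]
    · exact ih h0 (by omega)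

lemma indep (k : ℕ → ℕ → V) (hk : ∀ i j, k i j ∈ Ki E Es d i)
    (h0 : ∑ j ∈ Finset.range (d + 1), ∑ i ∈ (Finset.range (d + 1)).filter
      (fun i => i ≤ j ∧ i + j ≤ d), aeval A (tau th i j) (k i j) = 0) (i j : ℕ) (hij : i ≤ j)
    (hijd : i + j ≤ d) : k i j = 0 := by
  have h1 := S.indep_col (fun j => ∑ i ∈ (Finset.range (d + 1)).filter
      (fun i => i ≤ j ∧ i + j ≤ d), aeval A (tau th i j) (k i j)) (fun j => by
        apply Submodule.sum_mem
        intro i hi
        rw [Finset.mem_filter] at hi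
        exact S.tau_mem hi.2.1 (Ki_le_UU (hk i j))) (d + 1) h0 j (by omega)
  exact S.indep_row j (fun i => k i j) (fun i => hk i j) h1 i hij hijd

variable [FiniteDimensional K V]

/-- extension of linear maps given on the `τ_ij(A) K_i` -/
lemma exists_extension (Kf : ℕ → Submodule K V) (hK : ∀ i v, v ∈ Kf i ↔ v ∈ Ki E Es d i)
    (f : ∀ i : ℕ, ℕ → (Kf i →ₗ[K] V)) :
    ∃ X : Module.End K V, ∀ i j, i ≤ j → i + j ≤ d → ∀ v : Kf i,
      X (aeval A (tau th i j) (v : V)) = f i j v := by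
  classical
  let M := (p : Fin (d + 1) × Fin (d + 1)) → Kf p.1
  let g : ∀ p : Fin (d + 1) × Fin (d + 1), M →ₗ[K] Kf p.1 := fun p => LinearMap.proj p
  let Ψ : M →ₗ[K] V := ∑ p : Fin (d + 1) × Fin (d + 1),
    if (p.1 : ℕ) ≤ p.2 ∧ (p.1 : ℕ) + p.2 ≤ d then
      (aeval A (tau th p.1 p.2)) ∘ₗ (Kf p.1).subtype ∘ₗ g p else 0
  let Θ : M →ₗ[K] V := ∑ p : Fin (d + 1) × Fin (d + 1),
    if (p.1 : ℕ) ≤ p.2 ∧ (p.1 : ℕ) + p.2 ≤ d then (f p.1 p.2) ∘ₗ g p else 0
  have hΨ : ∀ k : M, Ψ k = ∑ p : Fin (d + 1) × Fin (d + 1),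
      if (p.1 : ℕ) ≤ p.2 ∧ (p.1 : ℕ) + p.2 ≤ d then aeval A (tau th p.1 p.2) (k p : V) else 0 := by
    intro k
    simp only [Ψ, LinearMap.sum_apply]
    refine Finset.sum_congr rfl fun p _ => ?_
    split_ifs <;> rfl
  have hΘ : ∀ k : M, Θ k = ∑ p : Fin (d + 1) × Fin (d + 1),
      if (p.1 : ℕ) ≤ p.2 ∧ (p.1 : ℕ) + p.2 ≤ d then f p.1 p.2 (k p) else 0 := by
    intro k
    simp only [Θ, LinearMap.sum_apply]
    refine Finset.sum_congr rfl fun p _ => ?_
    split_ifs <;> rfl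
  -- single vectors
  have hsingle : ∀ (i j : ℕ) (hij : i ≤ j) (hijd : i + j ≤ d) (v : Kf i), ∃ k : M,
      Ψ k = aeval A (tau th i j) (v : V) ∧ Θ k = f i j v := by
    intro i j hij hijd v
    let p₀ : Fin (d + 1) × Fin (d + 1) := (⟨i, by omega⟩, ⟨j, by omega⟩)
    let v' : Kf p₀.1 := v
    refine ⟨Pi.single p₀ v', ?_, ?_⟩
    · rw [hΨ, Finset.sum_eq_single p₀]
      · rw [if_pos ⟨hij, hijd⟩, Pi.single_eq_same]
      · intro p _ hne
        rw [Pi.single_eq_of_ne hne]
        simp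
      · intro h; exact absurd (Finset.mem_univ _) h
    · rw [hΘ, Finset.sum_eq_single p₀]
      · rw [if_pos ⟨hij, hijd⟩, Pi.single_eq_same]
      · intro p _ hne
        rw [Pi.single_eq_of_ne hne]
        simp
      · intro h; exact absurd (Finset.mem_univ _) h
  have hsurj : Function.Surjective Ψ := by
    rw [← LinearMap.range_eq_top]
    apply S.top_le
    intro i j hij hijd v hv
    obtain ⟨k, hk, -⟩ := hsingle i j hij hijd ⟨v, (hK i v).2 hv⟩
    exact ⟨k, hk⟩
  have hker : ∀ k, Ψ k = 0 → Θ k = 0 := by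
    intro k hk
    let k' : ℕ → ℕ → V := fun i j =>
      if h : i < d + 1 ∧ j < d + 1 then (k (⟨i, h.1⟩, ⟨j, h.2⟩) : V) else 0
    have hk' : ∀ i j, k' i j ∈ Ki E Es d i := by
      intro i j
      simp only [k']
      split_ifs with h
      · exact (hK i _).1 (k (⟨i, h.1⟩, ⟨j, h.2⟩)).2
      · exact Submodule.zero_mem _
    have h1 : ∑ j ∈ Finset.range (d + 1), ∑ i ∈ (Finset.range (d + 1)).filter
        (fun i => i ≤ j ∧ i + j ≤ d), aeval A (tau th i j) (k' i j) = 0 := by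
      rw [← hk, hΨ, Fintype.sum_prod_type_right, ← Fin.sum_univ_eq_sum_range
        (fun j => ∑ i ∈ (Finset.range (d + 1)).filter
          (fun i => i ≤ j ∧ i + j ≤ d), aeval A (tau th i j) (k' i j))]
      refine Finset.sum_congr rfl fun j _ => ?_
      rw [Finset.sum_filter, ← Fin.sum_univ_eq_sum_range
        (fun i => if i ≤ (j : ℕ) ∧ i + (j : ℕ) ≤ d then aeval A (tau th i j) (k' i j) else 0)]
      refine Finset.sum_congr rfl fun i _ => ?_
      have : k' i j = k (i, j) := by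
        simp only [k']
        rw [dif_pos ⟨i.2, j.2⟩]
      rw [this]
    have h2 := S.indep k' hk' h1
    rw [hΘ]
    refine Finset.sum_eq_zero fun p _ => ?_
    split_ifs with hp
    · have h3 := h2 p.1 p.2 hp.1 hp.2
      have h4 : k' p.1 p.2 = k p := by
        simp only [k']
        rw [dif_pos ⟨p.1.2, p.2.2⟩]
      rw [h4] at h3
      have h5 : k p = 0 := Subtype.ext h3
      rw [h5, map_zero]
    · rfl
  obtain ⟨r, hr⟩ := Ψ.exists_rightInverse_of_surjective (LinearMap.range_eq_top.2 hsurj)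
  refine ⟨Θ ∘ₗ r, ?_⟩
  intro i j hij hijd v
  obtain ⟨k, hk, hk'⟩ := hsingle i j hij hijd v
  have h1 : Ψ (r (Ψ k) - k) = 0 := by
    rw [map_sub, sub_eq_zero]
    exact LinearMap.congr_fun hr (Ψ k)
  have h2 := hker _ h1
  rw [map_sub, sub_eq_zero] at h2
  rw [← hk, ← hk']
  exact h2

/-- existence of the map given by three families -/
lemma exists_givenBy (Kf : ℕ → Submodule K V) (hK : ∀ i v, v ∈ Kf i ↔ v ∈ Ki E Es d i)
    (α : ∀ i, Kf i →ₗ[K] Kf i) (β : ∀ i, Kf i →ₗ[K] Kf (i - 1)) (γ : ∀ i, Kf i →ₗ[K] Kf (i + 1)) :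
    ∃ X : Module.End K V, IsGivenBy A d th Kf α β γ X := by
  obtain ⟨X, hX⟩ := S.exists_extension Kf hK (fun i j =>
    aa d th i j • (aeval A (tau th i (j - 1)) ∘ₗ (Kf i).subtype ∘ₗ α i) +
    bb d th i j • (aeval A (tau th (i - 1) (j - 1)) ∘ₗ (Kf (i - 1)).subtype ∘ₗ β i) +
    gg d th i j • (aeval A (tau th (i + 1) (j - 1)) ∘ₗ (Kf (i + 1)).subtype ∘ₗ γ i))
  refine ⟨X, fun i j hij hijd v => ?_⟩
  rw [hX i j hij hijd v]
  simp

/-- uniqueness of the map given by three families -/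
lemma givenBy_unique (Kf : ℕ → Submodule K V) (hK : ∀ i v, v ∈ Kf i ↔ v ∈ Ki E Es d i)
    {X X' : Module.End K V}
    (h : ∀ i j, i ≤ j → i + j ≤ d → ∀ v : Kf i,
      X (aeval A (tau th i j) (v : V)) = X' (aeval A (tau th i j) (v : V))) : X = X' := by
  have h1 : LinearMap.ker (X - X') = ⊤ := by
    apply S.top_le
    intro i j hij hijd v hv
    rw [LinearMap.mem_ker, LinearMap.sub_apply, sub_eq_zero]
    exact h i j hij hijd ⟨v, (hK i v).2 hv⟩
  rw [LinearMap.ker_eq_top] at h1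
  exact sub_eq_zero.1 h1

end Sys

end Pool.Agent.MP_770f2c_al
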