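import Pool.Agent.Lib.MP_770f2c_al.Class

/-!
# The classification
-/

namespace Pool.Agent.MP_770f2c_al

open Polynomial

variable {K V : Type*} [Field K] [AddCommGroup V] [Module K V]

lemma aa_self (d : ℕ) (th : ℕ → K) (i : ℕ) : aa d th i i = 0 := by simp [aa]

lemma aa_succ (d : ℕ) (th : ℕ → K) (i : ℕ) : aa d th i (i + 1) = th i - th (d - i) := by
  simp [aa]

lemma bb_zero (d : ℕ) (th : ℕ → K) (j : ℕ) : bb d th 0 j = 0 := by simp [bb]

lemma bb_self (d : ℕ) (th : ℕ → K) {i : ℕ} (hi : i ≠ 0) : bb d th i i = 1 := by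
  simp [bb, hi]

lemma gg_lt (d : ℕ) (th : ℕ → K) {i j : ℕ} (h : j < i + 2) : gg d th i j = 0 := by
  simp [gg, h]

namespace Sys

variable {A B : Module.End K V} {d : ℕ} {th ths : ℕ → K} {E Es : ℕ → Module.End K V}

lemma gg_ne_zero (S : Sys A B d th ths E Es) {i : ℕ} (h : i + (i + 2) ≤ d) :
    gg d th i (i + 2) ≠ 0 := by
  rw [gg, if_neg (by omega)]
  apply div_ne_zero
  · rw [Finset.prod_ne_zero_iff]
    intro m hm
    rw [Finset.mem_Ico] at hm
    rw [sub_ne_zero]
    intro h0
    have := S.D.inj (i + 1) (by omega) m (by omega) h0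
    omega
  · rw [Finset.prod_ne_zero_iff]
    intro m hm
    rw [Finset.mem_Ioc] at hm
    rw [sub_ne_zero]
    intro h0
    have := S.D.inj i (by omega) m (by omega) h0
    omega

lemma aeval_two (t : ℕ → K) (i : ℕ) (v : V) : aeval A (tau t i (i + 2)) v =
    A (A v) - (t i + t (i + 1)) • A v + (t i * t (i + 1)) • v := by
  rw [aeval_tau_succ t A (by omega), aeval_tau_succ t A le_rfl, aeval_tau_self, map_sub, map_smul]
  module

variable [FiniteDimensional K V]

/-- every solution is given by three families -/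
lemma exists_families (S : Sys A B d th ths E Es)
    (Kf : ℕ → Submodule K V) (hK : ∀ i v, v ∈ Kf i ↔ v ∈ Ki E Es d i)
    {X : Module.End K V} (hX : IsSolution A B d th ths X) :
    ∃ (α : ∀ i, Kf i →ₗ[K] Kf i) (β : ∀ i, Kf i →ₗ[K] Kf (i - 1))
      (γ : ∀ i, Kf i →ₗ[K] Kf (i + 1)), IsGivenBy A d th Kf α β γ X := by
  -- the family `β`
  let β : ∀ i, Kf i →ₗ[K] Kf (i - 1) := fun i =>
    X.restrict (fun v hv => (hK _ _).2 (S.map_Ki hX ((hK _ _).1 hv)))
  have hβ : ∀ i (v : Kf i), (β i v : V) = X v := fun _ _ => rfl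
  obtain ⟨Xβ, hXβ⟩ := S.exists_givenBy Kf hK 0 β 0
  have hY := hX.sub (S.isSolution_of_givenBy Kf hK hXβ)
  set Y := X - Xβ with hYdef
  have hY0 : ∀ i, ∀ v ∈ Ki E Es d i, Y v = 0 := by
    intro i v hv
    by_cases hi : i + i ≤ d
    · have h1 := hXβ i i le_rfl hi ⟨v, (hK i v).2 hv⟩
      rw [aeval_tau_self, aa_self, gg_lt d th (by omega), zero_smul, zero_smul, zero_add,
        add_zero, aeval_tau_self, hβ] at h1
      rw [hYdef, LinearMap.sub_apply, h1]
      by_cases hi0 : i = 0
      · subst hi0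
        have h2 := (S.lower_of_isSolution hX 0 (Ki_le_UU hv)).1
        rw [S.Fs_zero] at h2
        have h3 : X v = 0 := h2
        rw [h3]; simp
      · rw [bb_self d th hi0, one_smul, sub_self]
    · have h1 := S.tau_kill (show d < i + i by omega) hv
      rw [aeval_tau_self] at h1
      rw [h1, map_zero]
  -- the family `α`
  have hYA : ∀ i, ∀ v ∈ Ki E Es d i, Y (A v) ∈ Ki E Es d i := by
    intro i v hv
    have h1 : Y (A v - th i • v) = Y (A v) := by
      rw [map_sub, map_smul, hY0 i v hv, smul_zero, sub_zero]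
    have h2 : Y (A v - th (d - i) • v) = Y (A v) := by
      rw [map_sub, map_smul, hY0 i v hv, smul_zero, sub_zero]
    rw [← h1]
    apply S.mem_Ki_of_both hY (S.A_sub_mem (Ki_le_UU hv)) (S.rev.A_sub_mem (Ki_le_rev hv))
    rw [h1, h2]
  let α : ∀ i, Kf i →ₗ[K] Kf i := fun i =>
    (th i - th (d - i))⁻¹ • (Y ∘ₗ A).restrict
      (fun v hv => (hK _ _).2 (hYA i v ((hK _ _).1 hv)))
  have hα : ∀ i (v : Kf i), (α i v : V) = (th i - th (d - i))⁻¹ • Y (A v) := fun _ _ => rfl
  obtain ⟨Xα, hXα⟩ := S.exists_givenBy Kf hK α 0 0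
  have hZ := hY.sub (S.isSolution_of_givenBy Kf hK hXα)
  set Z := Y - Xα with hZdef
  have hZ0 : ∀ i, ∀ v ∈ Ki E Es d i, Z v = 0 := by
    intro i v hv
    by_cases hi : i + i ≤ d
    · have h1 := hXα i i le_rfl hi ⟨v, (hK i v).2 hv⟩
      rw [aeval_tau_self, aa_self, gg_lt d th (by omega), zero_smul, zero_smul, zero_add,
        add_zero] at h1
      rw [hZdef, LinearMap.sub_apply, h1, hY0 i v hv]
      simp
    · have h1 := S.tau_kill (show d < i + i by omega) hv
      rw [aeval_tau_self] at h1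
      rw [h1, map_zero]
  have htau1 : ∀ (i : ℕ) (v : V), aeval A (tau th i (i + 1)) v = A v - th i • v := by
    intro i v
    rw [aeval_tau_succ th A le_rfl, aeval_tau_self]
  have hZA : ∀ i, ∀ v ∈ Ki E Es d i, Z (A v) = 0 := by
    intro i v hv
    by_cases hi : i + (i + 1) ≤ d
    · have h1 := hXα i (i + 1) (by omega) hi ⟨v, (hK i v).2 hv⟩
      rw [htau1, aa_succ, gg_lt d th (by omega), Nat.add_sub_cancel, aeval_tau_self, hα,
        map_sub, map_smul] at h1
      have h2 : Xα v = 0 := by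
        have h3 := hZ0 i v hv
        rw [hZdef, LinearMap.sub_apply, hY0 i v hv, zero_sub, neg_eq_zero] at h3
        exact h3
      have hne : th i - th (d - i) ≠ 0 := by
        rw [sub_ne_zero]
        intro h0
        have := S.D.inj i (by omega) (d - i) (by omega) h0
        omega
      simp only [h2, smul_zero, sub_zero, smul_inv_smul₀ hne] at h1
      rw [hZdef, LinearMap.sub_apply, h1]
      simp
    · have h1 := S.tau_kill (show d < i + (i + 1) by omega) hv
      rw [htau1, sub_eq_zero] at h1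
      rw [h1, map_smul, hZ0 i v hv, smul_zero]
  -- the family `γ`
  have hZt : ∀ (t : ℕ → K) (i : ℕ) (v : V), v ∈ Ki E Es d i →
      Z (aeval A (tau t i (i + 2)) v) = Z (A (A v)) := by
    intro t i v hv
    rw [aeval_two, map_add, map_sub, map_smul, map_smul, hZA i v hv, hZ0 i v hv]
    simp
  have hZm : ∀ i, ∀ v ∈ Ki E Es d i, Z (aeval A (tau th i (i + 2)) v) ∈ Ki E Es d (i + 1) := by
    intro i v hv
    apply S.mem_Ki_of_both hZ (S.tau_mem (by omega) (Ki_le_UU hv))
      (S.rev.tau_mem (show i ≤ i + 2 by omega) (Ki_le_rev hv))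
    rw [hZt _ i v hv, hZt _ i v hv]
  let γ : ∀ i, Kf i →ₗ[K] Kf (i + 1) := fun i =>
    (gg d th i (i + 2))⁻¹ • (Z ∘ₗ aeval A (tau th i (i + 2))).restrict
      (fun v hv => (hK _ _).2 (hZm i v ((hK _ _).1 hv)))
  have hγ : ∀ i (v : Kf i), (γ i v : V) =
      (gg d th i (i + 2))⁻¹ • Z (aeval A (tau th i (i + 2)) (v : V)) := fun _ _ => rfl
  obtain ⟨Xγ, hXγ⟩ := S.exists_givenBy Kf hK 0 0 γ
  have hW := hZ.sub (S.isSolution_of_givenBy Kf hK hXγ)
  set W := Z - Xγ with hWdef
  have hW0 : W = 0 := by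
    apply S.givenBy_unique Kf hK
    intro i j hij hijd v
    obtain ⟨n, rfl⟩ : ∃ n, j = i + n := ⟨j - i, by omega⟩
    rw [LinearMap.zero_apply]
    refine S.vanish hW ?_ i n hijd v ((hK i _).1 v.2)
    intro i n hn hin v hv
    have h1 := hXγ i (i + n) (by omega) hin ⟨v, (hK i v).2 hv⟩
    rw [hWdef, LinearMap.sub_apply, h1]
    have hn' : n = 0 ∨ n = 1 ∨ n = 2 := by omega
    rcases hn' with rfl | rfl | rfl
    · rw [gg_lt d th (by omega), Nat.add_zero, aeval_tau_self, hZ0 i v hv]
      simp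
    · rw [gg_lt d th (by omega), htau1, map_sub, map_smul, hZ0 i v hv, hZA i v hv]
      simp
    · rw [hγ, show i + 2 - 1 = i + 1 by omega, aeval_tau_self,
        smul_inv_smul₀ (S.gg_ne_zero hin)]
      simp
  refine ⟨α, β, γ, ?_⟩
  intro i j hij hijd v
  have h1 := hXα i j hij hijd v
  have h2 := hXβ i j hij hijd v
  have h3 := hXγ i j hij hijd v
  have h4 : X = Xα + Xβ + Xγ := by
    have h5 : X = W + Xγ + Xα + Xβ := by
      rw [hWdef, hZdef, hYdef]; abel
    rw [h5, hW0]; abel
  rw [h4, LinearMap.add_apply, LinearMap.add_apply, h1, h2, h3]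
  simp

omit [FiniteDimensional K V] in
/-- uniqueness of the three families -/
lemma families_unique (S : Sys A B d th ths E Es)
    (Kf : ℕ → Submodule K V) (hK : ∀ i v, v ∈ Kf i ↔ v ∈ Ki E Es d i)
    {X : Module.End K V} {α α' : ∀ i, Kf i →ₗ[K] Kf i} {β β' : ∀ i, Kf i →ₗ[K] Kf (i - 1)}
    {γ γ' : ∀ i, Kf i →ₗ[K] Kf (i + 1)} (h : IsGivenBy A d th Kf α β γ X)
    (h' : IsGivenBy A d th Kf α' β' γ' X) :
    (∀ i, 2 * i < d → α i = α' i) ∧ (∀ i, i ≠ 0 → β i = β' i) ∧ (∀ i, γ i = γ' i) := by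
  have hzero : ∀ i, d < 2 * i → ∀ v : Kf i, v = 0 := by
    intro i hi v
    have h1 := S.tau_kill (show d < i + i by omega) ((hK i _).1 v.2)
    rw [aeval_tau_self] at h1
    exact Subtype.ext h1
  have hβ : ∀ i, i ≠ 0 → β i = β' i := by
    intro i hi
    by_cases hid : 2 * i ≤ d
    · ext v
      have h1 := h i i le_rfl (by omega) v
      have h2 := h' i i le_rfl (by omega) v
      rw [h1, aa_self, gg_lt d th (by omega), bb_self d th hi] at h2
      simpa [aeval_tau_self] using h2
    · ext v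
      rw [hzero i (by omega) v, map_zero, map_zero]
  have hα : ∀ i, 2 * i < d → α i = α' i := by
    intro i hid
    ext v
    have h1 := h i (i + 1) (by omega) (by omega) v
    have h2 := h' i (i + 1) (by omega) (by omega) v
    have hne : th i - th (d - i) ≠ 0 := by
      rw [sub_ne_zero]
      intro h0
      have := S.D.inj i (by omega) (d - i) (by omega) h0
      omega
    rw [h1, aa_succ, gg_lt d th (by omega), Nat.add_sub_cancel] at h2
    by_cases hi : i = 0
    · subst hi
      simp only [bb_zero, zero_smul, add_zero, aeval_tau_self] at h2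
      exact smul_right_injective _ hne h2
    · rw [hβ i hi] at h2
      simp only [zero_smul, add_zero, aeval_tau_self, add_left_inj] at h2
      exact smul_right_injective _ hne h2
  refine ⟨hα, hβ, ?_⟩
  intro i
  by_cases hid : i + (i + 2) ≤ d
  · ext v
    have h1 := h i (i + 2) (by omega) (by omega) v
    have h2 := h' i (i + 2) (by omega) (by omega) v
    rw [h1, hα i (by omega), show i + 2 - 1 = i + 1 by omega, aeval_tau_self,
      aeval_tau_self] at h2
    have h3 : bb d th i (i + 2) • aeval A (tau th (i - 1) (i + 1)) (β i v : V) =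
        bb d th i (i + 2) • aeval A (tau th (i - 1) (i + 1)) (β' i v : V) := by
      by_cases hi : i = 0
      · subst hi
        rw [bb_zero, zero_smul, zero_smul]
      · rw [hβ i hi]
    rw [h3, add_right_inj] at h2
    exact smul_right_injective _ (S.gg_ne_zero hid) h2
  · ext v
    rw [hzero (i + 1) (by omega) (γ i v), hzero (i + 1) (by omega) (γ' i v)]

end Sys

/-- The classification of the maps `X`. -/
theorem main [FiniteDimensional K V] {A B : Module.End K V} {d : ℕ} {th ths : ℕ → K}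
    (T : IsTridiagonalPair A B d th ths) :
    (∀ α β γ, ∃! X, IsGivenBy A d th (KK A B d th ths) α β γ X) ∧
    (∀ X, IsSolution A B d th ths X ↔
      ∃ α β γ, IsGivenBy A d th (KK A B d th ths) α β γ X) ∧
    (∀ X α β γ α' β' γ', IsGivenBy A d th (KK A B d th ths) α β γ X →
      IsGivenBy A d th (KK A B d th ths) α' β' γ' X →
      (∀ i, 2 * i < d → α i = α' i) ∧ (∀ i, i ≠ 0 → β i = β' i) ∧ (∀ i, γ i = γ' i)) := by
  obtain ⟨E, Es, S⟩ := exists_sys T
  have hK : ∀ i v, v ∈ KK A B d th ths i ↔ v ∈ Ki E Es d i := by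
    intro i v
    rw [S.KK_eq]
  refine ⟨?_, ?_, ?_⟩
  · intro α β γ
    obtain ⟨X, hX⟩ := S.exists_givenBy _ hK α β γ
    refine ⟨X, hX, fun X' hX' => ?_⟩
    apply S.givenBy_unique _ hK
    intro i j hij hijd v
    rw [hX i j hij hijd v, hX' i j hij hijd v]
  · intro X
    constructor
    · intro hX
      exact S.exists_families _ hK hX
    · rintro ⟨α, β, γ, hX⟩
      exact S.isSolution_of_givenBy _ hK hX
  · intro X α β γ α' β' γ' h h'
    exact S.families_unique _ hK h h'

end Pool.Agent.MP_770f2c_al
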