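import Pool.Agent.Lib.MP_770f2c_al.Bij

/-!
# The scalar identities
-/

namespace Pool.Agent.MP_770f2c_al

open Polynomial

variable {K : Type*} [Field K]

/-- the recurrences satisfied by the eigenvalues -/
structure Rec (d : ℕ) (th : ℕ → K) (β γ ρ : K) : Prop where
  one : ∀ j, j + 2 ≤ d → th j - β * th (j + 1) + th (j + 2) = γ
  two : ∀ j, j + 1 ≤ d →
    th j ^ 2 - β * th j * th (j + 1) + th (j + 1) ^ 2 - γ * (th j + th (j + 1)) = ρ

lemma Rec.rev {d : ℕ} {th : ℕ → K} {β γ ρ : K} (R : Rec d th β γ ρ) :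
    Rec d (fun i => th (d - i)) β γ ρ where
  one := by
    intro j hj
    have h := R.one (d - (j + 2)) (by omega)
    rw [show d - (j + 2) + 1 = d - (j + 1) by omega, show d - (j + 2) + 2 = d - j by omega] at h
    show th (d - j) - β * th (d - (j + 1)) + th (d - (j + 2)) = γ
    linear_combination h
  two := by
    intro j hj
    have h := R.two (d - (j + 1)) (by omega)
    rw [show d - (j + 1) + 1 = d - j by omega] at h
    show th (d - j) ^ 2 - β * th (d - j) * th (d - (j + 1)) + th (d - (j + 1)) ^ 2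
      - γ * (th (d - j) + th (d - (j + 1))) = ρ
    linear_combination h

section recur

variable (β γ ρ : K) (e f0 f1 : K[X])

/-- values of the operator at the powers of `X` -/
noncomputable def ff : ℕ → K[X]
  | 0 => f0
  | 1 => f1
  | n + 2 => C β * X * ff (n + 1) - X ^ 2 * ff n + C γ * (X * ff n + ff (n + 1)) + C ρ * ff n
      + e * X ^ n

/-- the operator -/
noncomputable def FF : K[X] →ₗ[K] K[X] :=
  (Polynomial.basisMonomials K).constr K (ff β γ ρ e f0 f1)

lemma FF_X_pow (n : ℕ) : FF β γ ρ e f0 f1 (X ^ n) = ff β γ ρ e f0 f1 n := by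
  have := (Polynomial.basisMonomials K).constr_basis K (ff β γ ρ e f0 f1) n
  rw [Polynomial.coe_basisMonomials] at this
  rw [← this, FF, Polynomial.X_pow_eq_monomial]

lemma FF_one : FF β γ ρ e f0 f1 1 = f0 := by
  have := FF_X_pow β γ ρ e f0 f1 0
  simpa [ff] using this

lemma FF_X : FF β γ ρ e f0 f1 X = f1 := by
  have := FF_X_pow β γ ρ e f0 f1 1
  simpa [ff] using this

lemma FF_rel (p : K[X]) : FF β γ ρ e f0 f1 (X ^ 2 * p) =
    C β * X * FF β γ ρ e f0 f1 (X * p) - X ^ 2 * FF β γ ρ e f0 f1 p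
      + C γ * (X * FF β γ ρ e f0 f1 p + FF β γ ρ e f0 f1 (X * p)) + C ρ * FF β γ ρ e f0 f1 p
      + e * p := by
  induction p using Polynomial.induction_on' with
  | add p q hp hq =>
    rw [mul_add, mul_add, map_add, map_add, map_add, hp, hq]
    ring
  | monomial n a =>
    have h1 : (monomial n a : K[X]) = a • X ^ n := by
      rw [← Polynomial.C_mul_X_pow_eq_monomial, Polynomial.smul_eq_C_mul]
    rw [h1, mul_smul_comm, mul_smul_comm, map_smul, map_smul, map_smul]
    rw [show (X : K[X]) ^ 2 * X ^ n = X ^ (n + 2) by ring, show (X : K[X]) * X ^ n = X ^ (n + 1) by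
      ring, FF_X_pow, FF_X_pow, FF_X_pow]
    simp only [ff, Polynomial.smul_eq_C_mul]
    ring

end recur

/-- one step of the recursion -/
lemma step {F : K[X] →ₗ[K] K[X]} {β γ ρ : K} {e : K[X]}
    (rel : ∀ p, F (X ^ 2 * p) = C β * X * F (X * p) - X ^ 2 * F p + C γ * (X * F p + F (X * p))
      + C ρ * F p + e * p)
    {a b c x0 x1 x2 κ cj : K} {P0 Q Q' : K[X]}
    (h0 : F P0 = C x0 * Q) (h1 : F (P0 * (X - C b)) = C x1 * Q')
    (hQ : C x0 * Q' = C x0 * (Q * (X - C a)))
    (he : e * P0 = C κ * (X - C b) * Q' + C cj * Q')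
    (S1 : x0 - β * x1 + x2 = κ)
    (S2 : x0 * (a + b - β * b - γ) + x1 * (b + c - β * b - γ) = cj)
    (R2 : x0 * (a ^ 2 - β * a * b + b ^ 2 - γ * (a + b) - ρ) = 0) :
    F (P0 * (X - C b) * (X - C c)) = C x2 * (Q' * (X - C b)) := by
  have hX : F (X * P0) = C x1 * Q' + C b * (C x0 * Q) := by
    have : X * P0 = P0 * (X - C b) + b • P0 := by
      rw [Polynomial.smul_eq_C_mul]; ring
    rw [this, map_add, map_smul, h1, h0, Polynomial.smul_eq_C_mul]
  have hP : P0 * (X - C b) * (X - C c) = X ^ 2 * P0 - (b + c) • (X * P0) + (b * c) • P0 := by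
    rw [Polynomial.smul_eq_C_mul, Polynomial.smul_eq_C_mul, C_add, C_mul]; ring
  rw [hP, map_add, map_sub, map_smul, map_smul, rel, hX, h0, he, Polynomial.smul_eq_C_mul,
    Polynomial.smul_eq_C_mul]
  subst S1 S2
  have R2' : C x0 * (C a ^ 2 - C β * C a * C b + C b ^ 2 - C γ * (C a + C b) - C ρ) = 0 := by
    rw [← C_0, ← R2]
    simp only [C_mul, C_sub, C_add, C_pow]
  simp only [C_mul, C_sub, C_add]
  linear_combination (-(Q)) * R2' + (X + C a - C β * C b - C γ) * hQ

lemma run {F : K[X] →ₗ[K] K[X]} {β γ ρ : K} {e : K[X]}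
    (rel : ∀ p, F (X ^ 2 * p) = C β * X * F (X * p) - X ^ 2 * F p + C γ * (X * F p + F (X * p))
      + C ρ * F p + e * p)
    {d : ℕ} {th : ℕ → K} (R : Rec d th β γ ρ) {x : ℕ → K} {κ : K} {c : ℕ → K} {i h j0 N : ℕ}
    (hN : N ≤ d) (hh : h ≤ j0) (hi : i ≤ j0) (hbase : x j0 = 0 ∨ h + 1 ≤ j0)
    (base0 : F (tau th i j0) = C (x j0) * tau th h (j0 - 1))
    (base1 : F (tau th i (j0 + 1)) = C (x (j0 + 1)) * tau th h j0)
    (he : ∀ j, j0 ≤ j → j + 2 ≤ N →
      e * tau th i j = C κ * (X - C (th j)) * tau th h j + C (c j) * tau th h j)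
    (S1 : ∀ j, j0 ≤ j → j + 2 ≤ N → x j - β * x (j + 1) + x (j + 2) = κ)
    (S2 : ∀ j, j0 ≤ j → j + 2 ≤ N → x j * (th (j - 1) + th j - β * th j - γ)
      + x (j + 1) * (th j + th (j + 1) - β * th j - γ) = c j) (j : ℕ) (hj : j0 ≤ j)
    (hjN : j + 1 ≤ N) :
    F (tau th i j) = C (x j) * tau th h (j - 1) ∧
      F (tau th i (j + 1)) = C (x (j + 1)) * tau th h j := by
  induction j, hj using Nat.le_induction with
  | base => exact ⟨base0, base1⟩
  | succ j hj ih =>
    obtain ⟨ih0, ih1⟩ := ih (by omega)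
    refine ⟨by simpa using ih1, ?_⟩
    rw [tau_succ th (by omega), tau_succ th (by omega), tau_succ th (j := j) (by omega)]
    rw [tau_succ th (by omega)] at ih1
    refine step rel (a := th (j - 1)) ih0 ih1 ?_ (he j hj (by omega)) (S1 j hj (by omega))
      (S2 j hj (by omega)) ?_
    · by_cases hx : x j = 0
      · rw [hx]; simp
      · have h1 : h ≤ j - 1 ∧ 1 ≤ j := by
          rcases hbase with h0 | h0
          · by_cases hjj : j0 = j
            · exact absurd (hjj ▸ h0) hx
            · omega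
          · omega
        have h2 := tau_succ th h1.1
        rw [Nat.sub_add_cancel h1.2] at h2
        rw [h2]
    · by_cases hx : x j = 0
      · rw [hx, zero_mul]
      · have h1 : 1 ≤ j := by
          rcases hbase with h0 | h0
          · by_cases hjj : j0 = j
            · exact absurd (hjj ▸ h0) hx
            · omega
          · omega
        have h2 := R.two (j - 1) (by omega)
        rw [Nat.sub_add_cancel h1] at h2
        rw [h2, sub_self, mul_zero]

end Pool.Agent.MP_770f2c_al
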