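import Pool.Agent.Lib.MP_770f2c_al.Exist

/-!
# The maps given by three families are solutions
-/

namespace Pool.Agent.MP_770f2c_al

open Polynomial

variable {K V : Type*} [Field K] [AddCommGroup V] [Module K V]

/-- polynomials of bounded degree are spanned by the `τ_ij` -/
lemma poly_span {th : ℕ → K} {i : ℕ} (Q : Submodule K K[X]) (N : ℕ)
    (hQ : ∀ j, i ≤ j → j ≤ i + N → tau th i j ∈ Q) (p : K[X]) (hp : p.natDegree ≤ N) : p ∈ Q := by
  induction N generalizing p with
  | zero =>
    have h1 := hQ i le_rfl (by omega)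
    rw [tau_self] at h1
    rw [eq_C_of_natDegree_le_zero hp]
    have : (C (p.coeff 0) : K[X]) = p.coeff 0 • 1 := by rw [smul_eq_C_mul, mul_one]
    rw [this]
    exact Q.smul_mem _ h1
  | succ N ih =>
    have h1 := hQ (i + (N + 1)) (by omega) le_rfl
    have hdeg : (tau th i (i + (N + 1))).natDegree = N + 1 := by
      rw [Sys.tau_natDegree]; omega
    have hmon := Sys.tau_monic (th := th) i (i + (N + 1))
    have h2 : p - p.coeff (N + 1) • tau th i (i + (N + 1)) ∈ Q := by
      apply ih (fun j hj hj' => hQ j hj (by omega))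
      rw [natDegree_le_iff_coeff_eq_zero]
      intro m hm
      rw [coeff_sub, coeff_smul, smul_eq_mul]
      rcases Nat.eq_or_lt_of_le (Nat.succ_le_of_lt hm) with h | h
      · rw [← h]
        have : (tau th i (i + (N + 1))).coeff (N + 1) = 1 := by
          have := hmon.coeff_natDegree
          rwa [hdeg] at this
        rw [Nat.succ_eq_add_one, this, mul_one, sub_self]
      · have e1 : p.coeff m = 0 := coeff_eq_zero_of_natDegree_lt (lt_of_le_of_lt hp h)
        have e2 : (tau th i (i + (N + 1))).coeff m = 0 :=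
          coeff_eq_zero_of_natDegree_lt (by rw [hdeg]; exact h)
        rw [e1, e2]; simp
    have h3 : p = (p - p.coeff (N + 1) • tau th i (i + (N + 1))) +
        p.coeff (N + 1) • tau th i (i + (N + 1)) := by abel
    rw [h3]
    exact Q.add_mem h2 (Q.smul_mem _ h1)

namespace Sys

variable {A B : Module.End K V} {d : ℕ} {th ths : ℕ → K} {E Es : ℕ → Module.End K V}

lemma Ki_rev (i : ℕ) : Ki (fun j => E (d - j)) Es d i = Ki E Es d i := by
  unfold Ki
  rw [sp_rev]
  congr 1
  apply sp_congr
  intro j hj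
  simp only [Set.mem_ofPred_eq]
  omega

/-- the formula for the other split decomposition -/
lemma formula_rev (S : Sys A B d th ths E Es) (Kf : ℕ → Submodule K V)
    {α : ∀ i, Kf i →ₗ[K] Kf i} {β : ∀ i, Kf i →ₗ[K] Kf (i - 1)} {γ : ∀ i, Kf i →ₗ[K] Kf (i + 1)}
    {X : Module.End K V} (hX : IsGivenBy A d th Kf α β γ X) (i j : ℕ) (hij : i ≤ j)
    (hijd : i + j ≤ d) (v : Kf i) : X (aeval A (tau (fun m => th (d - m)) i j) (v : V)) =
    aa d th i j • aeval A (tau (fun m => th (d - m)) i (j - 1)) (α i v : V) +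
    bb d th i j • aeval A (tau (fun m => th (d - m)) (i - 1) (j - 1)) (β i v : V) +
    gg d th i j • aeval A (tau (fun m => th (d - m)) (i + 1) (j - 1)) (γ i v : V) := by
  obtain ⟨b, c, r, R⟩ := S.exists_rec
  obtain ⟨Fa, hFa⟩ := case_a R i
  obtain ⟨Fg, hFg⟩ := case_g R S.D.inj i
  obtain ⟨Fb, hFb⟩ : ∃ F : K[X] →ₗ[K] K[X], ∀ j, i ≤ j → i + j ≤ d →
      F (tau th i j) = C (bb d th i j) * tau th (i - 1) (j - 1) ∧
      F (tau (fun m => th (d - m)) i j) =
        C (bb d th i j) * tau (fun m => th (d - m)) (i - 1) (j - 1) := by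
    by_cases hi : i = 0
    · refine ⟨0, fun j _ _ => ?_⟩
      simp [bb, hi]
    · exact case_b R S.D.inj i (by omega) (by omega)
  let Q : Submodule K K[X] :=
    { carrier := {p | X (aeval A p (v : V)) = aeval A (Fa p) (α i v : V) +
        aeval A (Fb p) (β i v : V) + aeval A (Fg p) (γ i v : V)}
      add_mem' := by
        intro p q hp hq
        show X _ = _
        simp only [map_add, LinearMap.add_apply] at hp hq ⊢
        rw [show X (aeval A p (v : V)) = _ from hp, show X (aeval A q (v : V)) = _ from hq]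
        abel
      zero_mem' := by
        show X _ = _
        simp
      smul_mem' := by
        intro a p hp
        show X _ = _
        simp only [map_smul, LinearMap.smul_apply]
        rw [show X (aeval A p (v : V)) = _ from hp]
        simp only [smul_add] }
  have hmul : ∀ (a : K) (p : K[X]) (w : V), aeval A (C a * p) w = a • aeval A p w := by
    intro a p w
    rw [← smul_eq_C_mul, map_smul, LinearMap.smul_apply]
  have hQ : ∀ l, i ≤ l → l ≤ i + (d - 2 * i) → tau th i l ∈ Q := by
    intro l hl hl'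
    show X _ = _
    rw [hX i l hl (by omega) v, (hFa l hl (by omega)).1, (hFb l hl (by omega)).1,
      (hFg l hl (by omega)).1, hmul, hmul, hmul]
  have h1 : tau (fun m => th (d - m)) i j ∈ Q := by
    apply poly_span Q (d - 2 * i) hQ
    rw [tau_natDegree]
    omega
  have h2 : X _ = _ := h1
  rw [h2, (hFa j hij hijd).2, (hFb j hij hijd).2, (hFg j hij hijd).2, hmul, hmul, hmul]

variable [FiniteDimensional K V]

/-- lowering property, abstract version -/
lemma lower_of_formula (S : Sys A B d th ths E Es)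
    (Kf : ℕ → Submodule K V) (hK : ∀ i v, v ∈ Kf i ↔ v ∈ Ki E Es d i)
    {a b g : ℕ → ℕ → K} (ha : ∀ i, a i i = 0) (hb : ∀ j, b 0 j = 0)
    (hg : ∀ i j, j < i + 2 → g i j = 0)
    {α : ∀ i, Kf i →ₗ[K] Kf i} {β : ∀ i, Kf i →ₗ[K] Kf (i - 1)} {γ : ∀ i, Kf i →ₗ[K] Kf (i + 1)}
    {X : Module.End K V}
    (hX : ∀ i j, i ≤ j → i + j ≤ d → ∀ v : Kf i, X (aeval A (tau th i j) (v : V)) =
      a i j • aeval A (tau th i (j - 1)) (α i v : V) +
      b i j • aeval A (tau th (i - 1) (j - 1)) (β i v : V) +
      g i j • aeval A (tau th (i + 1) (j - 1)) (γ i v : V)) (j : ℕ) {u : V}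
    (hu : u ∈ UU E Es d j) : X u ∈ Fs Es d j ⊓ GG E d (j - 1) := by
  by_cases hj : j ≤ d
  · refine S.UU_le hj (P := (Fs Es d j ⊓ GG E d (j - 1)).comap X) ?_ hu
    intro i hij hijd v hv
    rw [Submodule.mem_comap]
    have h1 := hX i j hij hijd ⟨v, (hK i v).2 hv⟩
    rw [h1]
    rcases j with _ | j
    · obtain rfl : i = 0 := by omega
      rw [ha, hb, hg 0 0 (by omega)]
      simp
    · rw [Nat.add_sub_cancel]
      apply Submodule.add_mem
      · apply Submodule.add_mem
        · by_cases h : i = j + 1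
          · have e : a i (j + 1) = 0 := by rw [h, ha]
            rw [e, zero_smul]; exact Submodule.zero_mem _
          · apply Submodule.smul_mem
            exact S.tau_mem (by omega) (Ki_le_UU ((hK _ _).1 (α i ⟨v, _⟩).2))
        · by_cases h : i = 0
          · have e : b i (j + 1) = 0 := by rw [h, hb]
            rw [e, zero_smul]; exact Submodule.zero_mem _
          · apply Submodule.smul_mem
            exact S.tau_mem (by omega) (Ki_le_UU ((hK _ _).1 (β i ⟨v, _⟩).2))
      · by_cases h : j + 1 < i + 2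
        · rw [hg _ _ h, zero_smul]; exact Submodule.zero_mem _
        · apply Submodule.smul_mem
          exact S.tau_mem (by omega) (Ki_le_UU ((hK _ _).1 (γ i ⟨v, _⟩).2))
  · have h1 : GG E d j = ⊥ := S.D.sp_bot fun m hm => by show ¬ (j ≤ m); omega
    have h2 : u ∈ GG E d j := hu.2
    rw [h1, Submodule.mem_bot] at h2
    rw [h2, map_zero]
    exact Submodule.zero_mem _

omit [FiniteDimensional K V] in
lemma lower_Fs (S : Sys A B d th ths E Es) {X : Module.End K V}
    (h : ∀ j, ∀ u ∈ UU E Es d j, X u ∈ Fs Es d j ⊓ GG E d (j - 1)) (k : ℕ) {v : V}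
    (hv : v ∈ Fs Es d k) : X v ∈ Fs Es d (k - 1) := by
  induction k generalizing v with
  | zero =>
    rw [S.Fs_zero, Submodule.mem_bot] at hv
    rw [hv, map_zero]; exact Submodule.zero_mem _
  | succ k ih =>
    rw [S.Fs_succ, Submodule.mem_sup] at hv
    obtain ⟨v1, hv1, v2, hv2, rfl⟩ := hv
    rw [map_add, Nat.add_sub_cancel]
    apply Submodule.add_mem
    · exact sp_mono (fun j (hj : j < k - 1) => (by show j < k; omega)) (ih hv1)
    · exact (h k v2 hv2).1

omit [FiniteDimensional K V] in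
lemma lower_GG (S : Sys A B d th ths E Es) {X : Module.End K V}
    (h : ∀ j, ∀ u ∈ UU E Es d j, X u ∈ Fs Es d j ⊓ GG E d (j - 1)) (k : ℕ) {v : V}
    (hv : v ∈ GG E d k) : X v ∈ GG E d (k - 1) := by
  by_cases hk : k ≤ d + 1
  · obtain ⟨m, hm⟩ : ∃ m, k + m = d + 1 := ⟨d + 1 - k, by omega⟩
    induction m generalizing k v with
    | zero =>
      rw [show k = d + 1 by omega, S.GG_top, Submodule.mem_bot] at hv
      rw [hv, map_zero]; exact Submodule.zero_mem _
    | succ m ih =>
      rw [S.GG_eq, Submodule.mem_sup] at hv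
      obtain ⟨v1, hv1, v2, hv2, rfl⟩ := hv
      rw [map_add]
      apply Submodule.add_mem
      · have := ih (k + 1) hv1 (by omega) (by omega)
        rw [Nat.add_sub_cancel] at this
        exact sp_mono (fun j (hj : k ≤ j) => (by show k - 1 ≤ j; omega)) this
      · exact (h k v2 hv2).2
  · have h1 : GG E d k = ⊥ := S.D.sp_bot fun m hm => by show ¬ (k ≤ m); omega
    rw [h1, Submodule.mem_bot] at hv
    rw [hv, map_zero]
    exact Submodule.zero_mem _

omit [FiniteDimensional K V] in
/-- maps lowering both split decompositions are solutions -/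
lemma isSolution_of_lower (S : Sys A B d th ths E Es) {X : Module.End K V}
    (h : ∀ j, ∀ u ∈ UU E Es d j, X u ∈ Fs Es d j ⊓ GG E d (j - 1))
    (h' : ∀ j, ∀ u ∈ UU (fun i => E (d - i)) Es d j,
      X u ∈ Fs Es d j ⊓ GG (fun i => E (d - i)) d (j - 1)) :
    IsSolution A B d th ths X where
  low := by
    intro i hi v hv
    rw [S.Ds.mem_eigenspace hi] at hv
    rw [S.Ds.eigSum_eq (s := {j | j < i}) (fun j (hj : j < i) => by omega)]
    have h1 : v ∈ Fs Es d (i + 1) := sp_mono (fun j hj => by
      rw [Set.mem_singleton_iff.1 hj]; show i < i + 1; omega) hv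
    have h2 := S.lower_Fs h (i + 1) h1
    rwa [Nat.add_sub_cancel] at h2
  tri := by
    intro i hi v hv
    rw [S.D.mem_eigenspace hi] at hv
    rw [S.D.eigSum_eq (s := {j | j ≤ d ∧ i ≤ j + 1 ∧ j ≤ i + 1}) (fun j hj => hj.1)]
    have h1 : v ∈ GG E d i := sp_mono (fun j hj => by
      rw [Set.mem_singleton_iff.1 hj]; show i ≤ i; omega) hv
    have h2 : v ∈ GG (fun i => E (d - i)) d (d - i) := by
      rw [GG, sp_rev]
      exact sp_mono (fun j hj => by
        rw [Set.mem_singleton_iff.1 hj]; show d - i ≤ d - i; omega) hv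
    have h3 := S.lower_GG h i h1
    have h4 := S.rev.lower_GG h' (d - i) h2
    rw [GG, sp_rev] at h4
    intro j hj hj'
    have hj'' : ¬ (j ≤ d ∧ i ≤ j + 1 ∧ j ≤ i + 1) := hj'
    by_cases h5 : i ≤ j + 1
    · apply h4 j hj
      show ¬ (d - i - 1 ≤ d - j)
      omega
    · apply h3 j hj
      show ¬ (i - 1 ≤ j)
      omega

/-- the maps given by three families are solutions -/
lemma isSolution_of_givenBy (S : Sys A B d th ths E Es)
    (Kf : ℕ → Submodule K V) (hK : ∀ i v, v ∈ Kf i ↔ v ∈ Ki E Es d i)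
    {α : ∀ i, Kf i →ₗ[K] Kf i} {β : ∀ i, Kf i →ₗ[K] Kf (i - 1)} {γ : ∀ i, Kf i →ₗ[K] Kf (i + 1)}
    {X : Module.End K V} (hX : IsGivenBy A d th Kf α β γ X) : IsSolution A B d th ths X := by
  have ha : ∀ i, aa d th i i = 0 := fun i => by simp [aa]
  have hb : ∀ j, bb d th 0 j = 0 := fun j => by simp [bb]
  have hg : ∀ i j, j < i + 2 → gg d th i j = 0 := fun i j hj => by simp [gg, hj]
  apply S.isSolution_of_lower
  · intro j u hu
    exact S.lower_of_formula Kf hK ha hb hg hX j hu
  · intro j u hu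
    refine S.rev.lower_of_formula Kf ?_ ha hb hg (S.formula_rev Kf hX) j hu
    intro i v
    rw [hK, Ki_rev]

end Sys

end Pool.Agent.MP_770f2c_al
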