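import Pool.Agent.Lib.MP_770f2c_al.Dec

/-!
# The split decomposition of a tridiagonal pair
-/

namespace Pool.Agent.MP_770f2c_al

open Polynomial

variable {K V : Type*} [Field K] [AddCommGroup V] [Module K V]

/-- a tridiagonal pair with its spectral projections -/
structure Sys (A B : Module.End K V) (d : ℕ) (th ths : ℕ → K) (E Es : ℕ → Module.End K V) :
    Prop where
  D : Dec A d th E
  Ds : Dec B d ths Es
  triE : ∀ i ≤ d, ∀ v ∈ sp E d {i}, B v ∈ sp E d {j | i ≤ j + 1 ∧ j ≤ i + 1}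
  triEs : ∀ i ≤ d, ∀ v ∈ sp Es d {i}, A v ∈ sp Es d {j | i ≤ j + 1 ∧ j ≤ i + 1}
  ne : ∀ i ≤ d, sp E d {i} ≠ ⊥
  nes : ∀ i ≤ d, sp Es d {i} ≠ ⊥
  irred : ∀ W : Submodule K V, (∀ w ∈ W, A w ∈ W) → (∀ w ∈ W, B w ∈ W) → W = ⊥ ∨ W = ⊤

lemma exists_sys {A B : Module.End K V} {d : ℕ} {th ths : ℕ → K}
    (h : IsTridiagonalPair A B d th ths) : ∃ E Es, Sys A B d th ths E Es := by
  obtain ⟨E, D⟩ := exists_dec h.th_inj h.top
  obtain ⟨Es, Ds⟩ := exists_dec h.ths_inj h.top'
  refine ⟨E, Es, D, Ds, ?_, ?_, ?_, ?_, h.irred⟩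
  · intro i hi v hv
    have h1 := h.tri i hi v ((D.mem_eigenspace hi).2 hv)
    rw [D.eigSum_eq (fun j hj => hj.1)] at h1
    exact sp_mono (fun j hj => hj.2) h1
  · intro i hi v hv
    have h1 := h.tri' i hi v ((Ds.mem_eigenspace hi).2 hv)
    rw [Ds.eigSum_eq (fun j hj => hj.1)] at h1
    exact sp_mono (fun j hj => hj.2) h1
  · intro i hi h0
    apply h.ne_bot i hi
    rw [eq_bot_iff]
    intro v hv
    rw [← h0]
    exact (D.mem_eigenspace hi).1 hv
  · intro i hi h0
    apply h.ne_bot' i hi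
    rw [eq_bot_iff]
    intro v hv
    rw [← h0]
    exact (Ds.mem_eigenspace hi).1 hv

/-- `V*_0 + ... + V*_(k-1)` -/
abbrev Fs (Es : ℕ → Module.End K V) (d k : ℕ) : Submodule K V := sp Es d {j | j < k}

/-- `V_k + ... + V_d` -/
abbrev GG (E : ℕ → Module.End K V) (d k : ℕ) : Submodule K V := sp E d {j | k ≤ j}

namespace Sys

variable {A B : Module.End K V} {d : ℕ} {th ths : ℕ → K} {E Es : ℕ → Module.End K V}

lemma rev (S : Sys A B d th ths E Es) :
    Sys A B d (fun i => th (d - i)) ths (fun i => E (d - i)) Es where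
  D := S.D.rev
  Ds := S.Ds
  triE := by
    intro i hi v hv
    rw [sp_rev] at hv ⊢
    have hv' : v ∈ sp E d {d - i} := by
      refine (sp_congr ?_).le hv
      intro j hj
      simp only [Set.mem_ofPred_eq, Set.mem_singleton_iff]
      omega
    have h1 := S.triE (d - i) (Nat.sub_le _ _) v hv'
    refine (sp_congr ?_).le h1
    intro j hj
    simp only [Set.mem_ofPred_eq]
    omega
  triEs := S.triEs
  ne := by
    intro i hi
    rw [sp_rev]
    have : sp E d {j | d - j ∈ ({i} : Set ℕ)} = sp E d {d - i} := by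
      apply sp_congr
      intro j hj
      simp only [Set.mem_ofPred_eq, Set.mem_singleton_iff]
      omega
    rw [this]
    exact S.ne (d - i) (Nat.sub_le _ _)
  nes := S.nes
  irred := S.irred

variable (S : Sys A B d th ths E Es)

include S

lemma A_Fs {i : ℕ} {v : V} (hv : v ∈ Fs Es d i) : A v ∈ Fs Es d (i + 1) := by
  refine S.Ds.map_sp_le ?_ hv
  intro j hj hji w hw
  refine sp_mono ?_ (S.triEs j hj w hw)
  rintro k ⟨_, hk⟩
  have hji' : j < i := hji
  show k < i + 1
  omega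

lemma B_GG {k : ℕ} {v : V} (hv : v ∈ GG E d k) : B v ∈ GG E d (k - 1) := by
  refine S.D.map_sp_le ?_ hv
  intro j hj hji w hw
  refine sp_mono ?_ (S.triE j hj w hw)
  rintro l ⟨hl, _⟩
  have hji' : k ≤ j := hji
  show k - 1 ≤ l
  omega

lemma A_sub_mem {i k : ℕ} {v : V} (hv : v ∈ Fs Es d i ⊓ GG E d k) :
    A v - th k • v ∈ Fs Es d (i + 1) ⊓ GG E d (k + 1) := by
  refine ⟨?_, ?_⟩
  · apply Submodule.sub_mem
    · exact S.A_Fs hv.1
    · apply Submodule.smul_mem
      exact sp_mono (fun j (hj : j < i) => Nat.lt_succ_of_lt hj) hv.1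
  · intro j hj hjk
    rw [map_sub, map_smul, S.D.comm j hj, ← sub_smul]
    have hjk' : ¬ (k + 1 ≤ j) := hjk
    by_cases h : j = k
    · rw [h, sub_self, zero_smul]
    · rw [hv.2 j hj (by show ¬ k ≤ j; omega), smul_zero]

lemma B_sub_mem {i k : ℕ} {v : V} (hv : v ∈ Fs Es d (i + 1) ⊓ GG E d k) :
    B v - ths i • v ∈ Fs Es d i ⊓ GG E d (k - 1) := by
  refine ⟨?_, ?_⟩
  · intro j hj hjk
    rw [map_sub, map_smul, S.Ds.comm j hj, ← sub_smul]
    have hjk' : ¬ (j < i) := hjk
    by_cases h : j = i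
    · rw [h, sub_self, zero_smul]
    · rw [hv.1 j hj (by show ¬ j < i + 1; omega), smul_zero]
  · apply Submodule.sub_mem
    · exact S.B_GG hv.2
    · apply Submodule.smul_mem
      exact sp_mono (fun j (hj : k ≤ j) => (by show k - 1 ≤ j; omega)) hv.2

lemma Fs_zero : Fs Es d 0 = ⊥ := S.Ds.sp_bot fun j _ => by simp

lemma GG_top : GG E d (d + 1) = ⊥ := S.D.sp_bot fun j hj => by
  show ¬ (d + 1 ≤ j); omega

omit S in
lemma GG_zero : GG E d 0 = ⊤ := Dec.sp_top fun _ _ => Nat.zero_le _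

omit S in
lemma Fs_top {k : ℕ} (hk : d < k) : Fs Es d k = ⊤ := Dec.sp_top fun j hj => by
  show j < k; omega

/-- the invariant subspaces -/
lemma W_inv (r : ℕ) : (⨆ i, Fs Es d (i + 1) ⊓ GG E d (i + r)) = ⊥ ∨
    (⨆ i, Fs Es d (i + 1) ⊓ GG E d (i + r)) = ⊤ := by
  apply S.irred
  · intro w hw
    refine Submodule.iSup_induction _ (motive := fun w => A w ∈ _) hw ?_ ?_ ?_
    · intro i w hw
      have h1 : A w = (A w - th (i + r) • w) + th (i + r) • w := by abel
      rw [h1]
      apply Submodule.add_mem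
      · apply Submodule.mem_iSup_of_mem (i + 1)
        have := S.A_sub_mem hw
        rwa [show i + r + 1 = i + 1 + r by ring] at this
      · apply Submodule.smul_mem
        exact Submodule.mem_iSup_of_mem i hw
    · rw [map_zero]; exact Submodule.zero_mem _
    · intro x y hx hy
      rw [map_add]
      exact Submodule.add_mem _ hx hy
  · intro w hw
    refine Submodule.iSup_induction _ (motive := fun w => B w ∈ _) hw ?_ ?_ ?_
    · intro i w hw
      have h1 : B w = (B w - ths i • w) + ths i • w := by abel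
      rw [h1]
      apply Submodule.add_mem
      · have h2 := S.B_sub_mem hw
        rcases i with _ | i
        · rw [S.Fs_zero, bot_inf_eq, Submodule.mem_bot] at h2
          rw [h2]; exact Submodule.zero_mem _
        · apply Submodule.mem_iSup_of_mem i
          rwa [show i + 1 + r - 1 = i + r by omega] at h2
      · apply Submodule.smul_mem
        exact Submodule.mem_iSup_of_mem i hw
    · rw [map_zero]; exact Submodule.zero_mem _
    · intro x y hx hy
      rw [map_add]
      exact Submodule.add_mem _ hx hy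

/-- `(V*_0 + ... + V*_(k-1)) ∩ (V_k + ... + V_d) = 0` -/
lemma inf_eq_bot (k : ℕ) : Fs Es d k ⊓ GG E d k = ⊥ := by
  rcases k with _ | k
  · rw [S.Fs_zero, bot_inf_eq]
  · have h1 : (⨆ i, Fs Es d (i + 1) ⊓ GG E d (i + 1)) = ⊥ := by
      rcases S.W_inv 1 with h | h
      · exact h
      · exfalso
        have h2 : GG E d 1 = ⊤ := by
          rw [eq_top_iff, ← h]
          apply iSup_le
          intro i
          refine inf_le_right.trans (sp_mono ?_)
          intro j (hj : i + 1 ≤ j)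
          show 1 ≤ j
          omega
        apply S.ne 0 (Nat.zero_le _)
        have h3 : sp E d {0} ⊓ GG E d 1 = ⊥ := by
          apply S.D.sp_disjoint
          intro j _ hj
          rw [Set.mem_singleton_iff.1 hj]
          show ¬ 1 ≤ 0
          omega
        rwa [h2, inf_top_eq] at h3
    rw [eq_bot_iff, ← h1]
    exact le_iSup (fun i => Fs Es d (i + 1) ⊓ GG E d (i + 1)) k

lemma iSup_eq_top : (⨆ i, Fs Es d (i + 1) ⊓ GG E d i) = ⊤ := by
  rcases S.W_inv 0 with h | h
  · exfalso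
    apply S.nes 0 (Nat.zero_le _)
    rw [eq_bot_iff, ← h]
    refine le_trans ?_ (le_iSup _ 0)
    rw [Nat.add_zero, GG_zero, inf_top_eq]
    apply sp_mono
    intro j hj
    rw [Set.mem_singleton_iff.1 hj]
    show 0 < 0 + 1
    omega
  · exact h

lemma sup_eq_top (k : ℕ) : Fs Es d k ⊔ GG E d k = ⊤ := by
  rw [eq_top_iff, ← S.iSup_eq_top]
  apply iSup_le
  intro i
  by_cases h : i < k
  · refine inf_le_left.trans (le_trans (sp_mono ?_) le_sup_left)
    intro j (hj : j < i + 1)
    show j < k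
    omega
  · refine inf_le_right.trans (le_trans (sp_mono ?_) le_sup_right)
    intro j (hj : i ≤ j)
    show k ≤ j
    omega

lemma isCompl (k : ℕ) : IsCompl (Fs Es d k) (GG E d k) :=
  IsCompl.of_eq (S.inf_eq_bot k) (S.sup_eq_top k)

lemma Fs_succ (k : ℕ) : Fs Es d (k + 1) = Fs Es d k ⊔ (Fs Es d (k + 1) ⊓ GG E d k) := by
  have h1 : Fs Es d k ≤ Fs Es d (k + 1) := sp_mono fun j (hj : j < k) => Nat.lt_succ_of_lt hj
  have h2 := S.sup_eq_top k
  rw [inf_comm, ← sup_inf_assoc_of_le _ h1, h2, top_inf_eq]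

lemma GG_eq (k : ℕ) : GG E d k = GG E d (k + 1) ⊔ (Fs Es d (k + 1) ⊓ GG E d k) := by
  have h1 : GG E d (k + 1) ≤ GG E d k := sp_mono fun j (hj : k + 1 ≤ j) => Nat.le_of_succ_le hj
  have h2 := S.sup_eq_top (k + 1)
  rw [← sup_inf_assoc_of_le _ h1, sup_comm, h2, top_inf_eq]

end Sys

end Pool.Agent.MP_770f2c_al
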